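import Mathlib

/-!
# Traces of powers and characteristic polynomials over a common field
-/

set_option autoImplicit false

namespace Pool.Agent.TB

open Finset Module Polynomial

/-- The traces of the powers are the power sums of the roots of the characteristic polynomial. -/
theorem np_trace {k V : Type} [Field k] [CharZero k] [IsAlgClosed k] [AddCommGroup V] [Module k V]
    [FiniteDimensional k V] (A : End k V) (r : ℕ) :
    LinearMap.trace k V (A ^ r) = (A.charpoly.roots.map (fun x => x ^ r)).sum := by
  classical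
  have hint : DirectSum.IsInternal fun μ ↦ A.maxGenEigenspace μ :=
    DirectSum.isInternal_submodule_of_iSupIndep_of_iSup_eq_top
      A.independent_maxGenEigenspace (End.iSup_maxGenEigenspace_eq_top A)
  have hfin : {μ | A.maxGenEigenspace μ ≠ ⊥}.Finite :=
    WellFoundedGT.finite_ne_bot_of_iSupIndep A.independent_maxGenEigenspace
  set T : Finset k := hfin.toFinset with hT
  have htr : LinearMap.trace k V (A ^ r) =
      ∑ μ ∈ T, (Module.finrank k (A.maxGenEigenspace μ) : k) * μ ^ r := by
    have hcomm : Commute A (A ^ r) := Commute.pow_right (Commute.refl A) r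
    rw [LinearMap.trace_eq_sum_trace_restrict' hint hfin
      (fun μ => A.mapsTo_maxGenEigenspace_of_comm hcomm μ)]
    apply Finset.sum_congr rfl
    intro μ _
    set B : End k (A.maxGenEigenspace μ) :=
      A.restrict (A.mapsTo_maxGenEigenspace_of_comm rfl μ) with hB
    have h1 : (A ^ r).restrict (A.mapsTo_maxGenEigenspace_of_comm hcomm μ) = B ^ r := by
      have h5 : ∀ (r : ℕ) (x : A.maxGenEigenspace μ), (A ^ r) (x : V) = ((B ^ r) x : V) := by
        intro r
        induction r with
        | zero => intro x; simp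
        | succ r ih =>
          intro x
          rw [pow_succ, pow_succ, Module.End.mul_apply, Module.End.mul_apply, ← ih (B x)]
          rfl
      ext x
      exact h5 r x
    have hnil : IsNilpotent (B - algebraMap k _ μ) := by
      have := A.isNilpotent_restrict_maxGenEigenspace_sub_algebraMap μ
      exact this
    have h2 : IsNilpotent (B ^ r - algebraMap k (End k (A.maxGenEigenspace μ)) (μ ^ r)) := by
      rw [map_pow]
      have hc : Commute B (algebraMap k (End k (A.maxGenEigenspace μ)) μ) :=
        (Algebra.commutes μ B).symm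
      rw [← hc.geom_sum₂_mul]
      apply Commute.isNilpotent_mul_left _ hnil
      apply Finset.sum_induction _ (fun x => Commute x (B - algebraMap k _ μ))
      · intro a b ha hb
        exact ha.add_left hb
      · exact Commute.zero_left _
      · intro i _
        apply Commute.mul_left
        · apply Commute.pow_left
          exact (Commute.refl B).sub_right hc
        · apply Commute.pow_left
          exact hc.symm.sub_right (Commute.refl _)
    have h3 : LinearMap.trace k (A.maxGenEigenspace μ)
        (B ^ r - algebraMap k (End k (A.maxGenEigenspace μ)) (μ ^ r)) = 0 := by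
      exact (LinearMap.isNilpotent_trace_of_isNilpotent h2).eq_zero
    have h4 : LinearMap.trace k (A.maxGenEigenspace μ)
        (algebraMap k (End k (A.maxGenEigenspace μ)) (μ ^ r)) =
        (Module.finrank k (A.maxGenEigenspace μ) : k) * μ ^ r := by
      rw [Algebra.algebraMap_eq_smul_one, map_smul, LinearMap.trace_one, smul_eq_mul, mul_comm]
    rw [h1, ← h4, ← sub_eq_zero, ← map_sub, h3]
  have hroots : A.charpoly.roots =
      ∑ μ ∈ T, Multiset.replicate (Module.finrank k (A.maxGenEigenspace μ)) μ := by
    apply Multiset.ext.mpr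
    intro a
    rw [Polynomial.count_roots, Multiset.count_sum', ← LinearMap.finrank_maxGenEigenspace_eq]
    simp only [Multiset.count_replicate]
    by_cases ha : a ∈ T
    · rw [Finset.sum_eq_single a]
      · rw [if_pos rfl]
      · intro b _ hb
        rw [if_neg hb]
      · intro h
        exact absurd ha h
    · rw [Finset.sum_eq_zero]
      · rw [hT, Set.Finite.mem_toFinset, Set.mem_ofPred_eq, not_not] at ha
        rw [ha]
        simp
      · intro b hb
        rw [if_neg]
        rintro rfl
        exact ha hb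
  rw [htr, hroots]
  have h1 : ∀ (T : Finset k), ((∑ μ ∈ T, Multiset.replicate
      (Module.finrank k (A.maxGenEigenspace μ)) μ).map (fun x => x ^ r)).sum =
      ∑ μ ∈ T, (Module.finrank k (A.maxGenEigenspace μ) : k) * μ ^ r := by
    intro T
    induction T using Finset.induction_on with
    | empty => simp
    | insert a T ha ih =>
      rw [Finset.sum_insert ha, Finset.sum_insert ha, Multiset.map_add, Multiset.sum_add, ih,
        Multiset.map_replicate, Multiset.sum_replicate, nsmul_eq_mul]
  rw [h1]

/-- Newton's identities over a common field. -/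
theorem np_esymm {K k₁ k₂ : Type} [Field K] [Field k₁] [CharZero k₁] [Field k₂] [CharZero k₂]
    (ι₁ : K →+* k₁) (ι₂ : K →+* k₂) {d₁ d₂ : ℕ} (x₁ : Fin d₁ → k₁) (x₂ : Fin d₂ → k₂) (t : ℕ → K)
    (h₁ : ∀ r, 1 ≤ r → ∑ i, x₁ i ^ r = ι₁ (t r)) (h₂ : ∀ r, 1 ≤ r → ∑ i, x₂ i ^ r = ι₂ (t r))
    (j : ℕ) : ∃ e : K, (Finset.univ.val.map x₁).esymm j = ι₁ e ∧
      (Finset.univ.val.map x₂).esymm j = ι₂ e := by
  induction j using Nat.strong_induction_on with
  | _ j ih =>
    by_cases hj0 : j = 0
    · subst hj0
      refine ⟨1, ?_, ?_⟩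
      · rw [map_one]; simp [Multiset.esymm]
      · rw [map_one]; simp [Multiset.esymm]
    choose! e he1 he2 using ih
    set E : K := (-1) ^ (j + 1) *
      ∑ a ∈ antidiagonal j with a.1 < j, (-1) ^ a.1 * e a.1 * t a.2 with hE
    have key : ∀ (k : Type) [Field k] [CharZero k] (ι : K →+* k) (d : ℕ) (x : Fin d → k)
        (_ : ∀ r, 1 ≤ r → ∑ i, x i ^ r = ι (t r))
        (_ : ∀ a, a < j → (Finset.univ.val.map x).esymm a = ι (e a)),
        (Finset.univ.val.map x).esymm j = ι (E / j) := by
      intro k _ _ ι d x ht he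
      have hN : (j : k) * (Finset.univ.val.map x).esymm j = ι E := by
        have h1 := congrArg (MvPolynomial.aeval x) (MvPolynomial.mul_esymm_eq_sum (Fin d) k j)
        rw [map_mul, map_natCast, MvPolynomial.aeval_esymm_eq_multiset_esymm] at h1
        rw [h1, hE, map_mul, map_mul, map_pow, map_neg, map_one, map_pow, map_neg, map_one,
          map_sum, map_sum]
        congr 1
        apply Finset.sum_congr rfl
        intro a ha
        simp only [Finset.mem_filter, Finset.HasAntidiagonal.mem_antidiagonal] at ha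
        rw [map_mul, map_mul, map_mul, map_mul, map_pow, map_neg, map_one, map_pow, map_neg,
          map_one, MvPolynomial.aeval_esymm_eq_multiset_esymm, he a.1 ha.2]
        congr 1
        rw [MvPolynomial.psum, map_sum]
        simp only [map_pow, MvPolynomial.aeval_X]
        exact ht a.2 (by omega)
      have hjk : (j : k) ≠ 0 := by exact_mod_cast hj0
      rw [map_div₀, map_natCast, ← hN]
      field_simp
    exact ⟨E / j, key k₁ ι₁ d₁ x₁ h₁ he1, key k₂ ι₂ d₂ x₂ h₂ he2⟩

theorem np_family {k : Type} (s : Multiset k) :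
    ∃ (d : ℕ) (x : Fin d → k), Finset.univ.val.map x = s := by
  refine ⟨s.card, fun i => s.toList.get (Fin.cast (by rw [Multiset.length_toList]) i), ?_⟩
  rw [Fin.univ_val_map]
  conv_rhs => rw [← Multiset.coe_toList s]
  congr 1
  apply List.ext_get
  · simp
  · intro n h1 h2
    simp

/-- Invertible operators with the same traces of powers have the same characteristic
polynomial. -/
theorem np_charpoly {K k₁ k₂ V₁ V₂ : Type} [Field K] [Field k₁] [CharZero k₁] [IsAlgClosed k₁]
    [Field k₂] [CharZero k₂] [IsAlgClosed k₂] [AddCommGroup V₁] [Module k₁ V₁]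
    [FiniteDimensional k₁ V₁] [AddCommGroup V₂] [Module k₂ V₂] [FiniteDimensional k₂ V₂]
    (ι₁ : K →+* k₁) (ι₂ : K →+* k₂) (A₁ : End k₁ V₁) (A₂ : End k₂ V₂)
    (hA₁ : Function.Injective A₁) (hA₂ : Function.Injective A₂) (t : ℕ → K)
    (h₁ : ∀ r, 1 ≤ r → LinearMap.trace k₁ V₁ (A₁ ^ r) = ι₁ (t r))
    (h₂ : ∀ r, 1 ≤ r → LinearMap.trace k₂ V₂ (A₂ ^ r) = ι₂ (t r)) :
    ∃ f : K[X], A₁.charpoly = f.map ι₁ ∧ A₂.charpoly = f.map ι₂ := by
  classical
  have hs : ∀ {k V : Type} [Field k] [IsAlgClosed k] [AddCommGroup V] [Module k V]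
      [FiniteDimensional k V] (A : End k V), A.charpoly.roots.card = A.charpoly.natDegree := by
    intro k V _ _ _ _ _ A
    exact (IsAlgClosed.splits A.charpoly).natDegree_eq_card_roots.symm
  obtain ⟨d₁, x₁, hx₁⟩ := np_family A₁.charpoly.roots
  obtain ⟨d₂, x₂, hx₂⟩ := np_family A₂.charpoly.roots
  have hne : ∀ {k V : Type} [Field k] [CharZero k] [IsAlgClosed k] [AddCommGroup V] [Module k V]
      [FiniteDimensional k V] (A : End k V), Function.Injective A →
      A.charpoly.roots.esymm A.charpoly.roots.card ≠ 0 := by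
    intro k V _ _ _ _ _ _ A hA
    rw [Multiset.esymm, Multiset.powersetCard_self, Multiset.map_singleton,
      Multiset.sum_singleton]
    intro h0
    rw [Multiset.prod_eq_zero_iff, Polynomial.mem_roots (LinearMap.charpoly_monic A).ne_zero,
      ← Module.End.hasEigenvalue_iff_isRoot_charpoly] at h0
    obtain ⟨x, hx⟩ := h0.exists_hasEigenvector
    apply hx.2
    apply hA
    rw [hx.apply_eq_smul, zero_smul, map_zero]
  have hp : ∀ r, 1 ≤ r → ∑ i, x₁ i ^ r = ι₁ (t r) := by
    intro r hr
    rw [← h₁ r hr, np_trace, ← hx₁, Multiset.map_map]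
    rfl
  have hp' : ∀ r, 1 ≤ r → ∑ i, x₂ i ^ r = ι₂ (t r) := by
    intro r hr
    rw [← h₂ r hr, np_trace, ← hx₂, Multiset.map_map]
    rfl
  have hE := np_esymm ι₁ ι₂ x₁ x₂ t hp hp'
  rw [hx₁, hx₂] at hE
  choose e he₁ he₂ using hE
  have hzero : ∀ {k : Type} [Field k] (s : Multiset k) (j : ℕ), s.card < j → s.esymm j = 0 := by
    intro k _ s j hj
    rw [Multiset.esymm, Multiset.powersetCard_eq_empty _ hj]
    simp
  have hle₁ : A₁.charpoly.roots.card ≤ A₂.charpoly.roots.card := by
    by_contra hcon
    push Not at hcon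
    have h1 := he₂ (A₁.charpoly.roots.card)
    rw [hzero _ _ hcon] at h1
    have h2 : e A₁.charpoly.roots.card = 0 := by
      rw [← map_eq_zero ι₂, ← h1]
    apply hne A₁ hA₁
    rw [he₁, h2, map_zero]
  have hle₂ : A₂.charpoly.roots.card ≤ A₁.charpoly.roots.card := by
    by_contra hcon
    push Not at hcon
    have h1 := he₁ (A₂.charpoly.roots.card)
    rw [hzero _ _ hcon] at h1
    have h2 : e A₂.charpoly.roots.card = 0 := by
      rw [← map_eq_zero ι₁, ← h1]
    apply hne A₂ hA₂
    rw [he₂, h2, map_zero]
  have hcard := le_antisymm hle₁ hle₂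
  set d := A₁.charpoly.natDegree with hd
  have hd₂ : A₂.charpoly.natDegree = d := by
    rw [← hs A₂, ← hcard, hs A₁]
  refine ⟨∑ j ∈ Finset.range (d + 1), Polynomial.monomial j ((-1) ^ (d - j) * e (d - j)), ?_, ?_⟩
  · ext j
    rw [Polynomial.coeff_map, Polynomial.finsetSum_coeff]
    simp only [Polynomial.coeff_monomial]
    rw [Finset.sum_ite_eq' (Finset.range (d + 1)) j]
    by_cases hj : j ≤ d
    · rw [if_pos (Finset.mem_range.mpr (by omega)),
        Polynomial.coeff_eq_esymm_roots_of_card (hs A₁) hj,
        (LinearMap.charpoly_monic A₁).leadingCoeff, one_mul, map_mul, map_pow, map_neg, map_one,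
        he₁, ← hd]
    · rw [if_neg (by rw [Finset.mem_range]; omega), map_zero]
      exact Polynomial.coeff_eq_zero_of_natDegree_lt (by omega)
  · ext j
    rw [Polynomial.coeff_map, Polynomial.finsetSum_coeff]
    simp only [Polynomial.coeff_monomial]
    rw [Finset.sum_ite_eq' (Finset.range (d + 1)) j]
    by_cases hj : j ≤ d
    · rw [if_pos (Finset.mem_range.mpr (by omega)),
        Polynomial.coeff_eq_esymm_roots_of_card (hs A₂) (by rw [hd₂]; exact hj),
        (LinearMap.charpoly_monic A₂).leadingCoeff, one_mul, map_mul, map_pow, map_neg, map_one,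
        he₂, hd₂]
    · rw [if_neg (by rw [Finset.mem_range]; omega), map_zero]
      exact Polynomial.coeff_eq_zero_of_natDegree_lt (by rw [hd₂]; omega)

end Pool.Agent.TB
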