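import Pool.Agent.Lib_helper61.TB.Dens

/-!
# Tate classes in one member of a compatible system and determinants at another place
-/

set_option autoImplicit false

namespace Pool.Agent.TB

open NumberField Topology Polynomial
open Pool.Agent.TT (Qbar cyc)
open Pool.Agent.DS (GQ Induces FrobIn)

/-- Congruent roots of unity of order prime to the residue characteristic are equal. -/
theorem root_eq {R : Type} [CommRing R] [IsDomain R] {Q : Ideal R} (hQ : Q ≠ ⊤) {q e : ℕ}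
    (hcop : Nat.Coprime e q) (hq : (q : R) ∈ Q) {x y : R} (hx : x ^ e = 1) (hy : y ^ e = 1)
    (h : y - x ∈ Q) : y = x := by
  by_contra hne
  have h1 : (∑ i ∈ Finset.range e, y ^ i * x ^ (e - 1 - i)) * (y - x) = 0 := by
    rw [Commute.geom_sum₂_mul (Commute.all y x) e, hx, hy, sub_self]
  have h2 : ∑ i ∈ Finset.range e, y ^ i * x ^ (e - 1 - i) = 0 :=
    (mul_eq_zero.mp h1).resolve_right (sub_ne_zero.mpr hne)
  have h3 : ∑ i ∈ Finset.range e, y ^ i * x ^ (e - 1 - i) - (e : R) * x ^ (e - 1) ∈ Q := by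
    have h4 : (e : R) * x ^ (e - 1) = ∑ i ∈ Finset.range e, x ^ i * x ^ (e - 1 - i) := by
      have h5 : ∀ i ∈ Finset.range e, x ^ i * x ^ (e - 1 - i) = x ^ (e - 1) := by
        intro i hi
        rw [Finset.mem_range] at hi
        rw [← pow_add]
        congr 1
        omega
      rw [Finset.sum_congr rfl h5, Finset.sum_const, Finset.card_range, nsmul_eq_mul]
    rw [h4, ← Finset.sum_sub_distrib]
    apply Q.sum_mem
    intro i _
    rw [← sub_mul]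
    apply Q.mul_mem_right
    obtain ⟨w, hw⟩ := sub_dvd_pow_sub_pow y x i
    rw [hw]
    exact Q.mul_mem_right _ h
  rw [h2, zero_sub, neg_mem_iff] at h3
  have h4 : (e : R) ∈ Q := by
    rcases Nat.eq_zero_or_pos e with h0 | h0
    · rw [h0, Nat.cast_zero]
      exact Q.zero_mem
    · have h5 : (e : R) = (e : R) * x ^ (e - 1) * x := by
        rw [mul_assoc, ← pow_succ, Nat.sub_add_cancel h0, hx, mul_one]
      rw [h5]
      exact Q.mul_mem_right _ h3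
  apply hQ
  rw [Ideal.eq_top_iff_one]
  have h5 : IsCoprime (e : ℤ) (q : ℤ) := Nat.isCoprime_iff_coprime.mpr hcop
  obtain ⟨a, b, hab⟩ := h5
  have h6 : (1 : R) = (a : R) * (e : R) + (b : R) * (q : R) := by
    have h7 := congrArg (Int.cast : ℤ → R) hab
    push_cast at h7
    exact h7.symm
  rw [h6]
  exact Q.add_mem (Q.mul_mem_left _ h4) (Q.mul_mem_left _ hq)

section Cyc

variable {K : Type} [Field K] [Algebra K Qbar] {p : ℕ} [hp : Fact p.Prime]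

theorem cycC_mul (σ τ : Qbar ≃ₐ[K] Qbar) : cycC p (σ * τ) = cycC p σ * cycC p τ := by
  unfold cycC
  have h1 : (((σ * τ : Qbar ≃ₐ[K] Qbar)) : Qbar ≃+* Qbar) =
      (σ : Qbar ≃+* Qbar) * (τ : Qbar ≃+* Qbar) := rfl
  rw [h1, map_mul, Units.val_mul, PadicInt.coe_mul, map_mul]

theorem cycC_one : cycC p (1 : Qbar ≃ₐ[K] Qbar) = 1 := by
  unfold cycC
  have h1 : (((1 : Qbar ≃ₐ[K] Qbar)) : Qbar ≃+* Qbar) = 1 := rfl
  rw [h1, map_one, Units.val_one, PadicInt.coe_one, map_one]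

theorem cycC_ne_zero (σ : Qbar ≃ₐ[K] Qbar) : cycC p σ ≠ 0 := by
  intro h
  have h1 := cycC_mul (p := p) σ σ⁻¹
  rw [mul_inv_cancel, cycC_one, h, zero_mul] at h1
  exact one_ne_zero h1

theorem cycC_continuous : Continuous (cycC p : (Qbar ≃ₐ[K] Qbar) → ℂ_[p]) := by
  have h1 := cyclotomicCharacter.continuous p K Qbar
  have h2 : Continuous (fun σ : Qbar ≃ₐ[K] Qbar =>
      ((cyclotomicCharacter Qbar p (σ : Qbar ≃+* Qbar) : ℤ_[p]ˣ) : ℤ_[p])) :=
    Units.continuous_val.comp h1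
  have h3 : Continuous (algebraMap ℚ_[p] ℂ_[p]) := continuous_algebraMap ℚ_[p] ℂ_[p]
  exact h3.comp (continuous_subtype_val.comp h2)

/-- The value of the cyclotomic character at a Frobenius element at `q`. -/
theorem cyc_frob_int {q : ℕ} (hq : q.Prime) (hne : p ≠ q) {Q : Ideal (𝓞 Qbar)} (hQ : Q.IsPrime)
    (hqQ : (q : 𝓞 Qbar) ∈ Q) {σ : Qbar ≃ₐ[K] Qbar}
    (hσ : ∀ x y : 𝓞 Qbar, (y : Qbar) = σ x → y - x ^ q ∈ Q) :
    ((cyclotomicCharacter Qbar p (σ : Qbar ≃+* Qbar) : ℤ_[p]ˣ) : ℤ_[p]) = (q : ℤ_[p]) := by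
  have : ∀ i : ℕ, NeZero (p ^ i) := fun i => ⟨pow_ne_zero _ hp.out.ne_zero⟩
  have hinst : ∀ i : ℕ, HasEnoughRootsOfUnity Qbar (p ^ i) := by
    intro i
    have : NeZero ((p ^ i : ℕ) : Qbar) := ⟨by exact_mod_cast pow_ne_zero _ hp.out.ne_zero⟩
    infer_instance
  apply PadicInt.ext_of_toZModPow.mp
  intro n
  obtain ⟨η, hη⟩ := HasEnoughRootsOfUnity.exists_primitiveRoot Qbar (p ^ n)
  have h1 := cyclotomicCharacter.spec p (σ : Qbar ≃+* Qbar) η hη.pow_eq_one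
  have hcop : Nat.Coprime (p ^ n) q :=
    Nat.Coprime.pow_left n ((Nat.coprime_primes hp.out hq).mpr hne)
  have hint : IsIntegral ℤ η := hη.isIntegral (pow_pos hp.out.pos n)
  have hint2 : IsIntegral ℤ (σ η) :=
    hint.map (((σ : Qbar ≃ₐ[K] Qbar) : Qbar →ₐ[K] Qbar) : Qbar →+* Qbar).toIntAlgHom
  have h2 := hσ ⟨η, hint⟩ ⟨σ η, hint2⟩ rfl
  have h3 : (⟨σ η, hint2⟩ : 𝓞 Qbar) = (⟨η, hint⟩ : 𝓞 Qbar) ^ q := by
    apply root_eq hQ.ne_top hcop hqQ _ _ h2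
    · apply RingOfIntegers.ext
      change (η ^ q) ^ p ^ n = 1
      rw [← pow_mul, mul_comm, pow_mul, hη.pow_eq_one, one_pow]
    · apply RingOfIntegers.ext
      change (σ η) ^ p ^ n = 1
      rw [← map_pow, hη.pow_eq_one, map_one]
  have h5 : σ η = η ^ q := by
    have h4 := congrArg (fun z : 𝓞 Qbar => (z : Qbar)) h3
    exact h4
  have h6 : η ^ ((cyclotomicCharacter Qbar p (σ : Qbar ≃+* Qbar)).val.toZModPow n).val =
      η ^ q := by
    rw [← h1, ← h5]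
    rfl
  rw [map_natCast]
  have h7 : ((cyclotomicCharacter Qbar p (σ : Qbar ≃+* Qbar)).val.toZModPow n).val ≡ q
      [MOD p ^ n] := by
    have h8 := (hη.isOfFinOrder (NeZero.ne _)).pow_inj_mod.mp h6
    rw [← hη.eq_orderOf] at h8
    exact h8
  rw [← ZMod.natCast_eq_natCast_iff] at h7
  rw [← h7, ZMod.natCast_zmod_val]

theorem cycC_frob {q : ℕ} (hq : q.Prime) (hne : p ≠ q) {Q : Ideal (𝓞 Qbar)} (hQ : Q.IsPrime)
    (hqQ : (q : 𝓞 Qbar) ∈ Q) {σ : Qbar ≃ₐ[K] Qbar}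
    (hσ : ∀ x y : 𝓞 Qbar, (y : Qbar) = σ x → y - x ^ q ∈ Q) : cycC p σ = (q : ℂ_[p]) := by
  unfold cycC
  rw [cyc_frob_int hq hne hQ hqQ hσ]
  simp

theorem cyc_frob {q : ℕ} (hq : q.Prime) (hne : p ≠ q) {Q : Ideal (𝓞 Qbar)} (hQ : Q.IsPrime)
    (hqQ : (q : 𝓞 Qbar) ∈ Q) {σ : Qbar ≃ₐ[K] Qbar}
    (hσ : ∀ x y : 𝓞 Qbar, (y : Qbar) = σ x → y - x ^ q ∈ Q) :
    cyc p σ = (q : PadicAlgCl p) := by
  unfold cyc
  rw [cyc_frob_int hq hne hQ hqQ hσ]
  simp

end Cyc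

/-- A subquotient on which a scalar multiple of `T` is the identity gives an eigenvalue. -/
theorem eig_of_sub {k V : Type} [Field k] [AddCommGroup V] [Module k V] [FiniteDimensional k V]
    (T : Module.End k V) (c : k) (W₁ W₂ : Submodule k V) (hW : W₁ ≤ W₂) (hne : W₁ ≠ W₂)
    (hT : ∀ x ∈ W₂, c • T x - x ∈ W₁) : ∃ x : V, x ≠ 0 ∧ c • T x = x := by
  by_contra hcon
  push Not at hcon
  let S : Module.End k V := c • T - 1
  have hS : ∀ x, S x = c • T x - x := fun x => rfl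
  have hinj : Function.Injective S := by
    rw [← LinearMap.ker_eq_bot, LinearMap.ker_eq_bot']
    intro x hx
    by_contra hx0
    apply hcon x hx0
    rw [hS, sub_eq_zero] at hx
    exact hx
  have h1 : W₂.map S ≤ W₁ := by
    rintro y ⟨x, hx, rfl⟩
    exact hT x hx
  have h2 : Module.finrank k (W₂.map S) = Module.finrank k W₂ :=
    (LinearEquiv.finrank_eq (Submodule.equivMapOfInjective S hinj W₂)).symm
  have h3 := Submodule.finrank_mono h1
  rw [h2] at h3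
  exact hne (Submodule.eq_of_le_of_finrank_le hW h3)

/-- **Tate classes at `ℓ` and determinants at `p`.** -/
theorem tate_det {K : Type} [Field K] [NumberField K] [Algebra K Qbar] {E : Type} [Field E]
    {p ℓ : ℕ} [Fact p.Prime] [Fact ℓ.Prime] (ip : E →+* ℂ_[p]) (il : E →+* PadicAlgCl ℓ) {r : ℕ}
    (d : Fin r → ℕ) (ρ : (i : Fin r) → (Qbar ≃ₐ[K] Qbar) →* Matrix (Fin (d i)) (Fin (d i)) ℂ_[p])
    (hc : ∀ i, Continuous (ρ i)) {V : Type} [AddCommGroup V] [Module (PadicAlgCl ℓ) V]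
    [Module.Finite (PadicAlgCl ℓ) V]
    (π : Representation (PadicAlgCl ℓ) (Qbar ≃ₐ[K] Qbar) V) (hcomp : Compatible ip il d ρ π)
    (j : ℕ) (H : Subgroup (Qbar ≃ₐ[K] Qbar)) (hH : IsOpen (H : Set (Qbar ≃ₐ[K] Qbar)))
    (W₁ W₂ : Submodule (PadicAlgCl ℓ) V) (hW : W₁ ≤ W₂)
    (hT : ∀ s ∈ H, ∀ x ∈ W₂, cyc ℓ s ^ j • π s x - x ∈ W₁) (hne : W₁ ≠ W₂) :
    ∀ h ∈ H, ∏ i, (1 - cycC p h ^ j • ρ i h).det = 0 := by
  intro h hh
  obtain ⟨B, hB⟩ := hcomp
  by_contra hcon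
  have hcont : Continuous (fun s : Qbar ≃ₐ[K] Qbar => ∏ i, (1 - cycC p s ^ j • ρ i s).det) := by
    apply continuous_finsetProd
    intro i _
    apply Continuous.matrix_det
    have h1 : Continuous (fun s : Qbar ≃ₐ[K] Qbar => cycC p s ^ j) := cycC_continuous.pow j
    exact continuous_const.sub (h1.smul (hc i))
  have hU : {s : Qbar ≃ₐ[K] Qbar | s ∈ H ∧ ∏ i, (1 - cycC p s ^ j • ρ i s).det ≠ 0} ∈ 𝓝 h := by
    apply Filter.inter_mem
    · exact hH.mem_nhds hh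
    · exact (isOpen_ne.preimage hcont).mem_nhds hcon
  obtain ⟨q, hq, hqB, Q, hQ, hqQ, σ, ⟨hσH, hσ0⟩, hσ⟩ := fb_dense h _ hU (B ∪ {p, ℓ})
  rw [Finset.mem_union, not_or, Finset.mem_insert, Finset.mem_singleton, not_or] at hqB
  obtain ⟨hqB, hqp, hql⟩ := hqB
  obtain ⟨f, hf1, hf2⟩ := hB q hq hqB Q hQ hqQ σ hσ
  have hcC := cycC_frob hq (Ne.symm hqp) hQ hqQ hσ
  have hcl := cyc_frob hq (Ne.symm hql) hQ hqQ hσ
  obtain ⟨x, hx0, hx⟩ := eig_of_sub (π σ) (cyc ℓ σ ^ j) W₁ W₂ hW hne (hT σ hσH)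
  rw [hcl] at hx
  have hx2 : π σ⁻¹ x = (q : PadicAlgCl ℓ) ^ j • x := by
    have h1 := congrArg (π σ⁻¹) hx
    rw [map_smul, ← Module.End.mul_apply, ← map_mul, inv_mul_cancel, map_one,
      Module.End.one_apply] at h1
    exact h1.symm
  have hroot : (π σ⁻¹).charpoly.IsRoot ((q : PadicAlgCl ℓ) ^ j) := by
    rw [← Module.End.hasEigenvalue_iff_isRoot_charpoly]
    apply Module.End.hasEigenvalue_of_hasEigenvector (x := x)
    refine ⟨?_, hx0⟩
    rw [Module.End.mem_eigenspace_iff]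
    exact hx2
  rw [hf2, Polynomial.IsRoot.def, Polynomial.eval_map] at hroot
  have h1 : (q : PadicAlgCl ℓ) ^ j = il ((q : E) ^ j) := by
    rw [map_pow, map_natCast]
  rw [h1, Polynomial.eval₂_at_apply, map_eq_zero] at hroot
  have h2 : (∏ i, (ρ i σ⁻¹).charpoly).eval ((q : ℂ_[p]) ^ j) = 0 := by
    have h3 : (q : ℂ_[p]) ^ j = ip ((q : E) ^ j) := by
      rw [map_pow, map_natCast]
    rw [hf1, Polynomial.eval_map, h3, Polynomial.eval₂_at_apply, hroot, map_zero]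
  rw [Polynomial.eval_prod, Finset.prod_eq_zero_iff] at h2
  obtain ⟨i, _, hi⟩ := h2
  apply hσ0
  apply Finset.prod_eq_zero (Finset.mem_univ i)
  rw [Matrix.eval_charpoly] at hi
  rw [hcC]
  have h4 : (1 : Matrix (Fin (d i)) (Fin (d i)) ℂ_[p]) - (q : ℂ_[p]) ^ j • ρ i σ =
      -(ρ i σ * (Matrix.scalar _ ((q : ℂ_[p]) ^ j) - ρ i σ⁻¹)) := by
    rw [mul_sub, ← map_mul, mul_inv_cancel, map_one, Matrix.scalar_apply,
      ← Matrix.smul_one_eq_diagonal, Matrix.mul_smul, mul_one, neg_sub]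
  rw [h4, Matrix.det_neg, Matrix.det_mul, hi, mul_zero, mul_zero]

end Pool.Agent.TB
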