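import Pool.Agent.Lib_helper61.TB.Defs
import Pool.Agent.Lib_helper61.TT.FR

/-!
# Frobenius elements are dense
-/

set_option autoImplicit false

namespace Pool.Agent.TB

open NumberField Topology
open Pool.Agent.TT (Qbar)
open Pool.Agent.DS (GQ Induces FrobIn)

/-- Conjugates of Frobenius elements. -/
theorem fb_conj {Q : Ideal (𝓞 Qbar)} {p : ℕ} {s τ : GQ} (hs : Induces Q p s) :
    Induces (Q.comap (MulSemiringAction.toRingHom GQ (𝓞 Qbar) τ)) p (τ⁻¹ * s * τ) := by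
  intro x y hy
  rw [Ideal.mem_comap, map_sub, map_pow]
  apply hs
  change τ (y : Qbar) = s (τ (x : Qbar))
  rw [hy]
  change (τ * (τ⁻¹ * s * τ)) (x : Qbar) = (s * τ) (x : Qbar)
  congr 1
  group

/-- There is a prime ideal of the ring of algebraic integers above `p`. -/
theorem fb_above {p : ℕ} (hp : p.Prime) :
    ∃ Q : Ideal (𝓞 Qbar), Q.IsPrime ∧ (p : 𝓞 Qbar) ∈ Q := by
  have : Fact p.Prime := ⟨hp⟩
  have hnu : ¬ IsUnit (p : 𝓞 Qbar) := by
    intro h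
    have h1 : IsUnit (algebraMap ℤ (𝓞 Qbar) (p : ℤ)) := by
      rw [map_natCast]
      exact h
    have hint : Algebra.IsIntegral ℤ (𝓞 Qbar) := inferInstance
    have h2 : IsUnit (p : ℤ) := by
      obtain ⟨u, hu⟩ := h1
      have h3 : IsIntegral ℤ ((u⁻¹ : (𝓞 Qbar)ˣ) : 𝓞 Qbar) := hint.isIntegral _
      have h4 : ((((u⁻¹ : (𝓞 Qbar)ˣ) : 𝓞 Qbar)) : Qbar) = algebraMap ℚ Qbar ((p : ℚ)⁻¹) := by
        have h5 : (((u : (𝓞 Qbar)) : Qbar)) * ((((u⁻¹ : (𝓞 Qbar)ˣ) : 𝓞 Qbar)) : Qbar) = 1 := by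
          rw [← map_mul, Units.mul_inv, map_one]
        have h6 : ((u : (𝓞 Qbar)) : Qbar) = (p : Qbar) := by
          rw [hu]
          simp
        rw [h6] at h5
        have h7 : (p : Qbar) ≠ 0 := by exact_mod_cast hp.ne_zero
        rw [map_inv₀, map_natCast]
        field_simp
        rw [mul_comm]
        exact h5
      have h5 : IsIntegral ℤ (algebraMap ℚ Qbar ((p : ℚ)⁻¹)) := by
        rw [← h4]
        exact h3.map (algebraMap (𝓞 Qbar) Qbar).toIntAlgHom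
      have h6 : IsIntegral ℤ ((p : ℚ)⁻¹) :=
        (isIntegral_algHom_iff (algebraMap ℚ Qbar).toIntAlgHom
          (algebraMap ℚ Qbar).injective).mp h5
      obtain ⟨z, hz⟩ := IsIntegrallyClosed.isIntegral_iff.mp h6
      have h7 : (z : ℚ) * p = 1 := by
        have h8 : (z : ℚ) = (p : ℚ)⁻¹ := by simpa using hz
        rw [h8]
        exact inv_mul_cancel₀ (by exact_mod_cast hp.ne_zero)
      have h8 : z * (p : ℤ) = 1 := by exact_mod_cast h7
      exact IsUnit.of_mul_eq_one z (by rw [mul_comm]; exact h8)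
    exact (Nat.prime_iff_prime_int.mp hp).not_isUnit h2
  obtain ⟨Q, hQ, hle⟩ := Ideal.exists_le_maximal (Ideal.span {(p : 𝓞 Qbar)})
    (by rwa [Ne, Ideal.span_singleton_eq_top])
  exact ⟨Q, hQ.isPrime, hle (Ideal.mem_span_singleton_self _)⟩

/-- Frobenius elements are dense (Chebotarev). -/
theorem fb_dense {K : Type} [Field K] [NumberField K] [Algebra K Qbar]
    (h : Qbar ≃ₐ[K] Qbar) (U : Set (Qbar ≃ₐ[K] Qbar)) (hU : U ∈ 𝓝 h) (B : Finset ℕ) :
    ∃ p : ℕ, p.Prime ∧ p ∉ B ∧ ∃ Q : Ideal (𝓞 Qbar), Q.IsPrime ∧ (p : 𝓞 Qbar) ∈ Q ∧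
      ∃ σ ∈ U, ∀ x y : 𝓞 Qbar, (y : Qbar) = σ x → y - x ^ p ∈ Q := by
  have h1 : (fun σ : Qbar ≃ₐ[K] Qbar => h * σ) ⁻¹' U ∈ 𝓝 (1 : Qbar ≃ₐ[K] Qbar) := by
    have hcont : Continuous (fun σ : Qbar ≃ₐ[K] Qbar => h * σ) := continuous_const_mul h
    apply hcont.continuousAt.preimage_mem_nhds
    rw [mul_one]
    exact hU
  rw [krullTopology_mem_nhds_one_iff] at h1
  obtain ⟨E, hE, hEH⟩ := h1
  have hac : Algebra.IsAlgebraic ℚ Qbar := AlgebraicClosure.isAlgebraic ℚ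
  let E0 : IntermediateField ℚ Qbar := E.restrictScalars ℚ
  have hfin : FiniteDimensional ℚ E0 := by
    have : FiniteDimensional ℚ E := FiniteDimensional.trans ℚ K E
    exact this
  let N : IntermediateField ℚ Qbar := IntermediateField.normalClosure ℚ E0 Qbar
  have hacl : IsAlgClosure ℚ Qbar := Pool.Agent.DS.frx_ac
  have hN : Normal ℚ Qbar := IsAlgClosure.normal ℚ Qbar
  have hNn : Normal ℚ N := normalClosure.normal ℚ E0 Qbar
  have hNf : FiniteDimensional ℚ N := normalClosure.is_finiteDimensional ℚ E0 Qbar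
  have hEN : E0 ≤ N := IntermediateField.le_normalClosure E0
  let π : GQ →* (N ≃ₐ[ℚ] N) := AlgEquiv.restrictNormalHom (F := ℚ) (K₁ := Qbar) N
  have hker : π.ker = N.fixingSubgroup := IntermediateField.restrictNormalHom_ker _
  have hopen : IsOpen (π.ker : Set GQ) := by
    rw [hker]
    exact N.fixingSubgroup_isOpen
  have hsurj : Function.Surjective π := AlgEquiv.restrictNormalHom_surjective Qbar
  have hcard : 0 < Nat.card (N ≃ₐ[ℚ] N) := Nat.card_pos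
  let h' : GQ := AlgEquiv.ofRingEquiv (f := (h : Qbar ≃+* Qbar)) (by
    intro a
    have h2 := map_ratCast (h : Qbar ≃+* Qbar) a
    simp)
  have hh' : ∀ x : Qbar, h' x = h x := fun x => rfl
  let C : Set (N ≃ₐ[ℚ] N) := {x | ∃ g, x = g * π h' * g⁻¹}
  have hCfin : C.Finite := Set.toFinite _
  have hCcard : 1 ≤ Nat.card C := by
    have : Nonempty C := ⟨⟨π h', 1, by group⟩⟩
    exact Nat.card_pos
  obtain ⟨p, hp, hpS, hpB⟩ := Pool.Agent.TT.fr_inf (δ := 1 / (2 * Nat.card (N ≃ₐ[ℚ] N)))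
    (by positivity)
    (Pool.Agent.DS.cha π hopen hsurj C (by
      rintro x ⟨g, rfl⟩ g'
      refine ⟨g' * g, ?_⟩
      group) (by positivity) (by
      have h2 : (0 : ℝ) < Nat.card (N ≃ₐ[ℚ] N) := by exact_mod_cast hcard
      have h3 : (1 : ℝ) ≤ Nat.card C := by exact_mod_cast hCcard
      calc 1 / (2 * (Nat.card (N ≃ₐ[ℚ] N) : ℝ)) < 1 / (Nat.card (N ≃ₐ[ℚ] N) : ℝ) := by
            apply one_div_lt_one_div_of_lt h2
            linarith
        _ ≤ (Nat.card C : ℝ) / (Nat.card (N ≃ₐ[ℚ] N) : ℝ) := by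
            gcongr)) B
  obtain ⟨Q, hQ, hpQ⟩ := fb_above hp
  obtain ⟨σ, hσ⟩ := Pool.Agent.TT.fr_frob hp Q hQ hpQ
  have h2 : π σ ∈ C := hpS Q hQ hpQ σ hσ
  obtain ⟨g, hg⟩ := h2
  obtain ⟨τ, rfl⟩ := hsurj g
  have h3 := fb_conj (τ := τ) hσ
  have h4 : π (τ⁻¹ * σ * τ) = π h' := by
    rw [map_mul, map_mul, map_inv, hg]
    group
  have h5 : ∀ x : Qbar, x ∈ N → (τ⁻¹ * σ * τ) x = h x := by
    intro x hx
    have h6 : h'⁻¹ * (τ⁻¹ * σ * τ) ∈ N.fixingSubgroup := by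
      rw [← hker, MonoidHom.mem_ker, map_mul, map_inv, h4, inv_mul_cancel]
    have h7 := (IntermediateField.mem_fixingSubgroup_iff N _).mp h6 x hx
    have h8 : h' ((h'⁻¹ * (τ⁻¹ * σ * τ)) x) = h' x := by rw [h7]
    rw [← hh', ← h8]
    change _ = (h' * (h'⁻¹ * (τ⁻¹ * σ * τ))) x
    congr 1
    group
  let s : Qbar ≃ₐ[K] Qbar := AlgEquiv.ofRingEquiv (f := ((τ⁻¹ * σ * τ : GQ) : Qbar ≃+* Qbar)) (by
    intro a
    have h6 : (τ⁻¹ * σ * τ) (algebraMap K Qbar a) = h (algebraMap K Qbar a) :=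
      h5 _ (hEN (E.algebraMap_mem a))
    rw [h.commutes] at h6
    exact h6)
  have hs : ∀ x : Qbar, s x = (τ⁻¹ * σ * τ) x := fun x => rfl
  refine ⟨p, hp, hpB, Q.comap (MulSemiringAction.toRingHom GQ (𝓞 Qbar) τ),
    Ideal.comap_isPrime _ _, ?_, s, ?_, ?_⟩
  · rw [Ideal.mem_comap, map_natCast]
    exact hpQ
  · have h6 : h⁻¹ * s ∈ (fun σ : Qbar ≃ₐ[K] Qbar => h * σ) ⁻¹' U := by
      apply hEH
      rw [SetLike.mem_coe, IntermediateField.mem_fixingSubgroup_iff]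
      intro x hx
      have h7 : h (((h⁻¹ * s : Qbar ≃ₐ[K] Qbar)) x) = h x := by
        change (h * (h⁻¹ * s)) x = h x
        rw [mul_inv_cancel_left, hs]
        exact h5 x (hEN hx)
      exact h.injective h7
    rw [Set.mem_preimage, mul_inv_cancel_left] at h6
    exact h6
  · intro x y hxy
    apply h3 x y
    rw [hxy, hs]

end Pool.Agent.TB
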