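import Pool.Agent.Lib_helper61.TT.GN

/-!
# The Gram matrix of the traces and irreducibility
-/

set_option autoImplicit false

namespace Pool.Agent.TB

open Finset Module

section

variable {C : Type} [NormedField C] [IsUltrametricDist C]

theorem gr_int_le (n : ℤ) : ‖(n : C)‖ ≤ 1 := IsUltrametricDist.norm_intCast_le_one C n

theorem gr_int_lt {p : ℕ} (hp : p.Prime) (hp1 : ‖(p : C)‖ < 1) {n : ℤ} (h : ‖(n : C)‖ < 1) :
    (p : ℤ) ∣ n := by
  by_contra hcon
  have h1 : IsCoprime (p : ℤ) n :=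
    ((Nat.prime_iff_prime_int.mp hp).coprime_iff_not_dvd).mpr hcon
  obtain ⟨a, b, hab⟩ := h1
  have h2 : (a : C) * (p : C) + (b : C) * (n : C) = 1 := by
    have h3 := congrArg (Int.cast : ℤ → C) hab
    push_cast at h3
    exact h3
  have h3 : ‖(a : C) * (p : C) + (b : C) * (n : C)‖ < 1 := by
    apply lt_of_le_of_lt (IsUltrametricDist.norm_add_le_max _ _)
    rw [norm_mul, norm_mul]
    apply max_lt
    · exact lt_of_le_of_lt (mul_le_of_le_one_left (norm_nonneg _) (gr_int_le a)) hp1
    · exact lt_of_le_of_lt (mul_le_of_le_one_left (norm_nonneg _) (gr_int_le b)) h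
  rw [h2, norm_one] at h3
  exact lt_irrefl _ h3

theorem gr_le_of_close {x y : C} (hx : ‖x‖ ≤ 1) (h : ‖y - x‖ < 1) : ‖y‖ ≤ 1 := by
  have h1 : y = (y - x) + x := by ring
  rw [h1]
  exact (IsUltrametricDist.norm_add_le_max _ _).trans (max_le h.le hx)

theorem gr_prod {ι : Type} (s : Finset ι) (a b : ι → C) (hb : ∀ i ∈ s, ‖b i‖ ≤ 1)
    (h : ∀ i ∈ s, ‖a i - b i‖ < 1) :
    ‖∏ i ∈ s, a i - ∏ i ∈ s, b i‖ < 1 ∧ ‖∏ i ∈ s, b i‖ ≤ 1 := by
  classical
  induction s using Finset.induction_on with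
  | empty => simp
  | insert i s hi ih =>
    obtain ⟨h1, h2⟩ := ih (fun j hj => hb j (Finset.mem_insert_of_mem hj))
      (fun j hj => h j (Finset.mem_insert_of_mem hj))
    have hbi := hb i (Finset.mem_insert_self _ _)
    have hi1 := h i (Finset.mem_insert_self _ _)
    rw [Finset.prod_insert hi, Finset.prod_insert hi]
    constructor
    · have h3 : a i * ∏ j ∈ s, a j - b i * ∏ j ∈ s, b j =
          a i * (∏ j ∈ s, a j - ∏ j ∈ s, b j) + (a i - b i) * ∏ j ∈ s, b j := by ring
      rw [h3]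
      apply lt_of_le_of_lt (IsUltrametricDist.norm_add_le_max _ _)
      rw [norm_mul, norm_mul]
      apply max_lt
      · exact lt_of_le_of_lt (mul_le_of_le_one_left (norm_nonneg _) (gr_le_of_close hbi hi1)) h1
      · exact lt_of_le_of_lt (mul_le_of_le_one_right (norm_nonneg _) h2) hi1
    · rw [norm_mul]
      exact mul_le_one₀ hbi (norm_nonneg _) h2

theorem gr_det {ι : Type} [Fintype ι] [DecidableEq ι] (A : Matrix ι ι C) (B : Matrix ι ι ℤ)
    (h : ∀ i j, ‖A i j - (B i j : C)‖ < 1) : ‖A.det - (B.det : C)‖ < 1 := by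
  rw [Matrix.det_apply', Matrix.det_apply', Int.cast_sum, ← Finset.sum_sub_distrib]
  apply Pool.Agent.TT.gn_sum_lt _ _ zero_lt_one
  intro σ _
  rw [Int.cast_mul, Int.cast_prod, Int.cast_id, ← mul_sub, norm_mul]
  exact lt_of_le_of_lt (mul_le_of_le_one_left (norm_nonneg _) (gr_int_le _))
    (gr_prod _ _ _ (fun i _ => gr_int_le _) (fun i _ => h _ _)).1

/-- **The Gram step.** -/
theorem gram_indep {G : Type} [Group G] {ι J : Type} [Fintype ι] [DecidableEq ι] [Fintype J]
    [DecidableEq J] (ρ : G →* Matrix ι ι C)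
    (t : G → ℤ) (ht : ∀ g, ‖(ρ g).trace - (t g : C)‖ < 1) {p : ℕ} (hp : p.Prime)
    (hp1 : ‖(p : C)‖ < 1) (g : J → G)
    (hD : (Matrix.of fun a b => ((t (g a * g b) : ℤ) : ZMod p)).det ≠ 0) :
    LinearIndependent C (fun a => ρ (g a)) := by
  set B : Matrix J J ℤ := Matrix.of fun a b => t (g a * g b) with hB
  set A : Matrix J J C := Matrix.of fun a b => (ρ (g a) * ρ (g b)).trace with hA
  have h1 : ‖A.det - (B.det : C)‖ < 1 := by
    apply gr_det
    intro a b
    rw [hA, hB, Matrix.of_apply, Matrix.of_apply, ← map_mul]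
    exact ht _
  have h2 : ((B.det : ℤ) : ZMod p) ≠ 0 := by
    have h3 : (Matrix.of fun a b => ((t (g a * g b) : ℤ) : ZMod p)) =
        B.map (Int.castRingHom (ZMod p)) := by
      ext a b
      rfl
    rw [h3, ← RingHom.mapMatrix_apply, ← RingHom.map_det] at hD
    exact hD
  have h3 : A.det ≠ 0 := by
    intro h0
    rw [h0, zero_sub, norm_neg] at h1
    have h4 := gr_int_lt hp hp1 h1
    exact h2 ((ZMod.intCast_zmod_eq_zero_iff_dvd _ _).mpr h4)
  rw [Fintype.linearIndependent_iff]
  intro c hc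
  have h4 : Matrix.vecMul c A = 0 := by
    ext b
    have h5 : Matrix.vecMul c A b = ((∑ a, c a • ρ (g a)) * ρ (g b)).trace := by
      rw [Finset.sum_mul, Matrix.trace_sum]
      simp only [Matrix.vecMul, dotProduct, hA, Matrix.of_apply, Matrix.smul_mul,
        Matrix.trace_smul, smul_eq_mul]
    rw [h5, hc, zero_mul, Matrix.trace_zero, Pi.zero_apply]
  intro a
  exact congrFun (Matrix.eq_zero_of_vecMul_eq_zero h3 h4) a

/-- A representation with `d ^ 2` independent operators is irreducible. -/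
theorem gram_irred {G : Type} [Group G] {d : ℕ} (ρ : G →* Matrix (Fin d) (Fin d) C)
    (g : Fin d × Fin d → G) (hg : LinearIndependent C (fun a => ρ (g a)))
    (W : Submodule C (Fin d → C)) (hW : ∀ g, ∀ w ∈ W, (ρ g).mulVec w ∈ W) : W = ⊥ ∨ W = ⊤ := by
  classical
  have hspan : Submodule.span C (Set.range fun a => ρ (g a)) = ⊤ := by
    apply hg.span_eq_top_of_card_eq_finrank'
    rw [Module.finrank_matrix]
    simp
  have hall : ∀ (A : Matrix (Fin d) (Fin d) C), ∀ w ∈ W, A.mulVec w ∈ W := by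
    intro A w hw
    have hA : A ∈ Submodule.span C (Set.range fun a => ρ (g a)) := by
      rw [hspan]
      exact Submodule.mem_top
    induction hA using Submodule.span_induction with
    | mem x hx =>
      obtain ⟨a, rfl⟩ := hx
      exact hW _ _ hw
    | zero => rw [Matrix.zero_mulVec]; exact W.zero_mem
    | add x y _ _ hx hy => rw [Matrix.add_mulVec]; exact W.add_mem hx hy
    | smul c x _ hx => rw [Matrix.smul_mulVec]; exact W.smul_mem _ hx
  by_cases hW0 : W = ⊥
  · exact Or.inl hW0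
  · right
    obtain ⟨w, hw, hw0⟩ := (Submodule.ne_bot_iff W).mp hW0
    obtain ⟨i, hi⟩ := Function.ne_iff.mp hw0
    rw [Pi.zero_apply] at hi
    rw [eq_top_iff]
    intro v _
    have h1 := hall (Matrix.of fun a b => if b = i then v a * (w i)⁻¹ else 0) w hw
    have h2 : (Matrix.of fun a b => if b = i then v a * (w i)⁻¹ else 0).mulVec w = v := by
      ext a
      simp only [Matrix.mulVec, dotProduct, Matrix.of_apply, ite_mul, zero_mul]
      rw [Finset.sum_ite_eq' Finset.univ i, if_pos (Finset.mem_univ _), mul_assoc,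
        inv_mul_cancel₀ hi, mul_one]
    rw [h2] at h1
    exact h1

end

end Pool.Agent.TB
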