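import Pool.Agent.Lib_helper61.TT.Defs

/-!
# The `p`-adic cyclotomic character with values in `ℂ_[p]` and compatible representations:
definitions
-/

set_option autoImplicit false

namespace Pool.Agent.TB

open NumberField Pool.Agent.TT Polynomial

/-- The `p`-adic cyclotomic character of `Gal(Qbar/K)`, with values in `ℂ_[p]`. -/
noncomputable def cycC {K : Type} [Field K] [Algebra K Qbar] (p : ℕ) [Fact p.Prime]
    (σ : Qbar ≃ₐ[K] Qbar) : ℂ_[p] :=
  algebraMap ℚ_[p] ℂ_[p] ((cyclotomicCharacter Qbar p (σ : Qbar ≃+* Qbar) : ℤ_[p]) : ℚ_[p])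

/-- The family of representations `ρ_i` over `ℂ_[p]` and the representation `π` over the algebraic
closure of `ℚ_ℓ` are compatible: for all prime ideals `𝔓` of the ring of algebraic integers above
almost all primes `q` and all elements `σ` of the Galois group `Gal(Qbar/K)` that induce `x ↦ x ^ q`
modulo `𝔓`, the product of the characteristic polynomials of the `ρ_i(σ⁻¹)` and the characteristic
polynomial of `π(σ⁻¹)` are the images of one polynomial with coefficients in `E`. -/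
def Compatible {K : Type} [Field K] [Algebra K Qbar] {E : Type} [Field E] {p ℓ : ℕ}
    [Fact p.Prime] [Fact ℓ.Prime] (ip : E →+* ℂ_[p]) (il : E →+* PadicAlgCl ℓ) {r : ℕ}
    (d : Fin r → ℕ) (ρ : (i : Fin r) → (Qbar ≃ₐ[K] Qbar) →* Matrix (Fin (d i)) (Fin (d i)) ℂ_[p])
    {V : Type} [AddCommGroup V] [Module (PadicAlgCl ℓ) V] [Module.Finite (PadicAlgCl ℓ) V]
    (π : Representation (PadicAlgCl ℓ) (Qbar ≃ₐ[K] Qbar) V) : Prop :=
  ∃ B : Finset ℕ, ∀ q : ℕ, q.Prime → q ∉ B → ∀ 𝔓 : Ideal (𝓞 Qbar), 𝔓.IsPrime →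
    (q : 𝓞 Qbar) ∈ 𝔓 → ∀ σ : Qbar ≃ₐ[K] Qbar,
      (∀ x y : 𝓞 Qbar, (y : Qbar) = σ x → y - x ^ q ∈ 𝔓) →
        ∃ f : E[X], ∏ i, (ρ i σ⁻¹).charpoly = f.map ip ∧ (π σ⁻¹).charpoly = f.map il

end Pool.Agent.TB
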