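import Pool.Agent.Lib_helper16.TC.TC11
import Pool.Agent.Lib_helper89.TC.TC12

/-!
# The number of points of the complement modulo `p (q - 1)`
-/

set_option autoImplicit false

namespace Pool.Agent.TF

open Finset

/-- The principal minors of a permutation matrix, with signs. -/
def ww {n : ℕ} (P : Equiv.Perm (Fin n)) (s : Finset (Fin n)) : ℤ :=
  (-1) ^ s.card * ((Matrix.of fun a b : Fin n => if P a = b then (1 : ℤ) else 0).submatrix
    (Subtype.val : s → Fin n) (Subtype.val : s → Fin n)).det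

/-- The residual trace, up to sign. -/
def tw (n N b : ℕ) (P : Equiv.Perm (Fin n)) : ℤ :=
  ∑ s : Finset (Fin n) with s.card ≤ N, ww P s * if b = 0 then ((N + 1 - s.card : ℕ) : ℤ) else 1

theorem cn_pow {p q : ℤ} (h : p ∣ q - 1) (e : ℕ) : p ∣ q ^ e - 1 :=
  h.trans (by
    have := sub_dvd_pow_sub_pow q 1 e
    rwa [one_pow] at this)

theorem cn_geom {p q : ℤ} (h : p ∣ q - 1) (e : ℕ) :
    p ∣ ∑ i ∈ range e, q ^ i - (e : ℤ) := by
  have h1 : ∑ i ∈ range e, q ^ i - (e : ℤ) = ∑ i ∈ range e, (q ^ i - 1) := by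
    rw [Finset.sum_sub_distrib, Finset.sum_const, Finset.card_range, nsmul_eq_mul, mul_one]
  rw [h1]
  exact Finset.dvd_sum fun i _ => cn_pow h i

section

variable {F κ : Type} [Field F] [Fintype F] [DecidableEq F] [Field κ] [Algebra F κ]
    [DecidableEq κ]

theorem cn_zero (hF : ∀ c : κ, c ^ Fintype.card F = c → c ∈ Set.range (algebraMap F κ)) {n N : ℕ}
    (l : Fin n → Fin (N + 1) → κ) (g : Equiv.Perm (Fin n))
    (hl : ∀ i j, l (g i) j = l i j ^ Fintype.card F) (hn : N + 1 ≤ n)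
    (hgen : ∀ s : Fin (N + 1) ↪ Fin n, (Matrix.of fun i j => l (s i) j).det ≠ 0) {p : ℤ}
    (hp : p ∣ (Fintype.card F : ℤ) - 1) :
    ∃ c : ℤ, (Nat.card {x : Fin (N + 1) → F // ∀ i, ∑ j, l i j * algebraMap F κ (x j) ≠ 0} : ℤ) =
      ((Fintype.card F : ℤ) - 1) * c ∧ p ∣ c - tw n N 0 g := by
  classical
  set q : ℤ := (Fintype.card F : ℤ) with hq
  have h1 := Pool.Agent.TC.tc11_pr hF l g hl hn hgen
  have h2 := Pool.Agent.TC.tc12_pr (n := n) (by omega) g
  refine ⟨∑ s : Finset (Fin n), ww g s * ∑ i ∈ range (N + 1 - s.card), q ^ i, ?_, ?_⟩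
  · have h5 : (Fintype.card {x : Fin (N + 1) → F //
        ∀ i, ∑ j, l i j * algebraMap F κ (x j) ≠ 0} : ℤ) =
        ∑ s : Finset (Fin n), ww g s * (q ^ (N + 1 - s.card) - 1) := by
      have h6 : ∑ s : Finset (Fin n), ww g s * (q ^ (N + 1 - s.card) - 1) =
          ∑ s : Finset (Fin n), ww g s * q ^ (N + 1 - s.card) - ∑ s : Finset (Fin n), ww g s := by
        rw [← Finset.sum_sub_distrib]
        apply Finset.sum_congr rfl
        intro s _
        ring
      have h7 : ∑ s : Finset (Fin n), ww g s = 0 := h2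
      rw [h6, h7, sub_zero, h1]
      rfl
    rw [Nat.card_eq_fintype_card, h5, Finset.mul_sum]
    apply Finset.sum_congr rfl
    intro s _
    have h3 := geom_sum_mul q (N + 1 - s.card)
    rw [← h3]
    ring
  · unfold tw
    have h3 : ∑ s : Finset (Fin n) with s.card ≤ N,
        (ww g s * if (0 : ℕ) = 0 then ((N + 1 - s.card : ℕ) : ℤ) else 1) =
        ∑ s : Finset (Fin n), ww g s * ((N + 1 - s.card : ℕ) : ℤ) := by
      rw [Finset.sum_filter]
      apply Finset.sum_congr rfl
      intro s _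
      by_cases hs : s.card ≤ N
      · rw [if_pos hs, if_pos rfl]
      · rw [if_neg hs, Nat.sub_eq_zero_of_le (by omega), Nat.cast_zero, mul_zero]
    rw [h3, ← Finset.sum_sub_distrib]
    apply Finset.dvd_sum
    intro s _
    rw [← mul_sub]
    exact Dvd.dvd.mul_left (cn_geom hp _) _

theorem cn_pos (hF : ∀ c : κ, c ^ Fintype.card F = c → c ∈ Set.range (algebraMap F κ)) {n N b : ℕ}
    (hb : b ≠ 0)
    (l : Fin n → Fin (N + 1) → κ) (g : Equiv.Perm (Fin n))
    (hl : ∀ i j, l (g i) j = l i j ^ Fintype.card F) (hn : N + 1 ≤ n)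
    (hgen : ∀ s : Fin (N + 1) ↪ Fin n, (Matrix.of fun i j => l (s i) j).det ≠ 0)
    (hgen0 : ∀ s : Fin N ↪ Fin n, (Matrix.of fun i (j : Fin N) => l (s i) j.succ).det ≠ 0) {p : ℤ}
    (hp : p ∣ (Fintype.card F : ℤ) - 1) :
    ∃ c : ℤ, (Nat.card {x : Fin (N + 1) → F // x 0 ≠ 0 ∧
        ∀ i, ∑ j, l i j * algebraMap F κ (x j) ≠ 0} : ℤ) =
      ((Fintype.card F : ℤ) - 1) * c ∧ p ∣ c - tw n N b g := by
  classical
  set q : ℤ := (Fintype.card F : ℤ) with hq
  have h1 := Pool.Agent.TC.tc11_pr hF l g hl hn hgen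
  have h2 := Pool.Agent.TC.tc11_pr (M := N) hF (fun i j => l i j.succ) g
    (fun i j => hl i j.succ) (by omega) hgen0
  have h3 : Fintype.card {x : Fin (N + 1) → F // ∀ i, ∑ j, l i j * algebraMap F κ (x j) ≠ 0} =
      Fintype.card {x : Fin (N + 1) → F // x 0 ≠ 0 ∧
        ∀ i, ∑ j, l i j * algebraMap F κ (x j) ≠ 0} +
      Fintype.card {x : Fin N → F // ∀ i, ∑ j, l i j.succ * algebraMap F κ (x j) ≠ 0} := by
    have h4 : Fintype.card {x : Fin N → F // ∀ i, ∑ j, l i j.succ * algebraMap F κ (x j) ≠ 0} =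
        Fintype.card {x : Fin (N + 1) → F // x 0 = 0 ∧
          ∀ i, ∑ j, l i j * algebraMap F κ (x j) ≠ 0} := by
      apply Fintype.card_congr
      refine ⟨fun x => ⟨Fin.cons 0 x.1, ?_, ?_⟩, fun x => ⟨fun j => x.1 j.succ, ?_⟩, ?_, ?_⟩
      · rfl
      · intro i
        rw [Fin.sum_univ_succ]
        simp only [Fin.cons_zero, map_zero, mul_zero, zero_add, Fin.cons_succ]
        exact x.2 i
      · intro i
        have h5 := x.2.2 i
        rw [Fin.sum_univ_succ, x.2.1, map_zero, mul_zero, zero_add] at h5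
        exact h5
      · intro x
        rfl
      · intro x
        apply Subtype.ext
        funext j
        refine Fin.cases ?_ (fun j => ?_) j
        · exact x.2.1.symm
        · rfl
    rw [h4, Fintype.card_subtype, Fintype.card_subtype, Fintype.card_subtype,
      ← Finset.card_union_of_disjoint]
    · congr 1
      ext x
      simp only [Finset.mem_filter, Finset.mem_univ, true_and, Finset.mem_union]
      by_cases hx : x 0 = 0
      · simp [hx]
      · simp [hx]
    · rw [Finset.disjoint_left]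
      intro x hx hx'
      simp only [Finset.mem_filter, Finset.mem_univ, true_and] at hx hx'
      exact hx.1 hx'.1
  have h5 : (Fintype.card {x : Fin (N + 1) → F // x 0 ≠ 0 ∧
        ∀ i, ∑ j, l i j * algebraMap F κ (x j) ≠ 0} : ℤ) =
      ∑ s : Finset (Fin n), ww g s * (q ^ (N + 1 - s.card) - q ^ (N - s.card)) := by
    have h6 : (Fintype.card {x : Fin (N + 1) → F // x 0 ≠ 0 ∧
        ∀ i, ∑ j, l i j * algebraMap F κ (x j) ≠ 0} : ℤ) =
        (Fintype.card {x : Fin (N + 1) → F //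
          ∀ i, ∑ j, l i j * algebraMap F κ (x j) ≠ 0} : ℤ) -
        (Fintype.card {x : Fin N → F //
          ∀ i, ∑ j, l i j.succ * algebraMap F κ (x j) ≠ 0} : ℤ) := by
      rw [h3]
      push_cast
      ring
    rw [h6, h1, h2, ← Finset.sum_sub_distrib]
    apply Finset.sum_congr rfl
    intro s _
    unfold ww
    ring
  refine ⟨∑ s : Finset (Fin n) with s.card ≤ N, ww g s * q ^ (N - s.card), ?_, ?_⟩
  · rw [Nat.card_eq_fintype_card, h5, Finset.mul_sum, Finset.sum_filter]
    apply Finset.sum_congr rfl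
    intro s _
    by_cases hs : s.card ≤ N
    · rw [if_pos hs, Nat.succ_sub hs, pow_succ]
      ring
    · rw [if_neg hs, Nat.sub_eq_zero_of_le (by omega), Nat.sub_eq_zero_of_le (by omega)]
      ring
  · unfold tw
    rw [← Finset.sum_sub_distrib]
    apply Finset.dvd_sum
    intro s _
    rw [if_neg hb, ← mul_sub]
    exact Dvd.dvd.mul_left (cn_pow hp _) _

end

end Pool.Agent.TF
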