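import Pool.Agent.Lib_helper61.TB.RS
import Pool.Agent.Lib_helper61.TB.CN
import Pool.Agent.Lib_helper16.TC.TC13
import Pool.Agent.Lib_helper18.TC.TC15

/-!
# The traces of Frobenius elements modulo `1 - ζ`
-/

set_option autoImplicit false

namespace Pool.Agent.TF

open Pool.Agent.TB
open NumberField Topology
open Pool.Agent.TT (Qbar cyc rm_exists rm_root rm_root_aux pl_frob_pow residueSymbol)
open Pool.Agent.DS (GQ Induces FrobIn)

/-- Prime ideals above prime numbers are maximal. -/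
theorem cg_max {q : ℕ} (hq : q.Prime) {Q : Ideal (𝓞 Qbar)} (hQ : Q.IsPrime)
    (hqQ : (q : 𝓞 Qbar) ∈ Q) : Q.IsMaximal := by
  have : Fact q.Prime := ⟨hq⟩
  have hQ2 : Q.comap (algebraMap ℤ (𝓞 Qbar)) = Ideal.span {(q : ℤ)} := by
    have hmax : (Ideal.span {(q : ℤ)}).IsMaximal := Int.ideal_span_isMaximal_of_prime q
    symm
    apply hmax.eq_of_le
    · exact (Ideal.comap_isPrime _ _).ne_top
    · rw [Ideal.span_singleton_le_iff_mem, Ideal.mem_comap]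
      simpa using hqQ
  have hmax : (Ideal.span {(q : ℤ)}).IsMaximal := Int.ideal_span_isMaximal_of_prime q
  exact Ideal.isMaximal_of_isIntegral_of_isMaximal_comap Q (by
    rw [hQ2]; exact hmax)

/-- A nonzero algebraic integer lies in prime ideals above finitely many primes only. -/
theorem cg_bad {α : 𝓞 Qbar} (hα : α ≠ 0) :
    ∃ B : Finset ℕ, ∀ q : ℕ, q.Prime → q ∉ B → ∀ Q : Ideal (𝓞 Qbar), Q.IsPrime →
      (q : 𝓞 Qbar) ∈ Q → α ∉ Q := by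
  have hac : Algebra.IsAlgebraic ℚ Qbar := AlgebraicClosure.isAlgebraic ℚ
  obtain ⟨m, hm, hd⟩ := Pool.Agent.TC.tc15_pr α hα
  refine ⟨m.primeFactors, ?_⟩
  intro q hq hqB Q hQ hqQ hαQ
  have h1 : (m : 𝓞 Qbar) ∈ Q := by
    obtain ⟨β, hβ⟩ := hd
    rw [hβ]
    exact Q.mul_mem_right _ hαQ
  have h2 : Nat.Coprime q m := by
    rw [hq.coprime_iff_not_dvd]
    intro h
    exact hqB (Nat.mem_primeFactors.mpr ⟨hq, h, hm⟩)
  have h5 : IsCoprime (q : ℤ) (m : ℤ) := Nat.isCoprime_iff_coprime.mpr h2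
  obtain ⟨a, b, hab⟩ := h5
  have h6 : (1 : 𝓞 Qbar) = (a : 𝓞 Qbar) * (q : 𝓞 Qbar) + (b : 𝓞 Qbar) * (m : 𝓞 Qbar) := by
    have h7 := congrArg (Int.cast : ℤ → 𝓞 Qbar) hab
    push_cast at h7
    exact h7.symm
  apply hQ.ne_top
  rw [Ideal.eq_top_iff_one, h6]
  exact Q.add_mem (Q.mul_mem_left _ hqQ) (Q.mul_mem_left _ h1)

/-- The finite set of the bad primes of a symmetric form. -/
theorem cg_bad_form {K : Type} [Field K] [Algebra K Qbar] {N n b : ℕ} (D : SymForm K N n b) :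
    ∃ B : Finset ℕ, ∀ q : ℕ, q.Prime → q ∉ B → ∀ Q : Ideal (𝓞 Qbar), Q.IsPrime →
      (q : 𝓞 Qbar) ∈ Q → D.c ∉ Q ∧
      (∀ s : Fin (N + 1) ↪ Fin n, (Matrix.of fun i j => D.L (s i) j).det ∉ Q) ∧
      (0 < b → ∀ s : Fin N ↪ Fin n, (Matrix.of fun i (j : Fin N) => D.L (s i) j.succ).det ∉ Q) := by
  classical
  obtain ⟨B1, hB1⟩ := cg_bad D.c_ne
  choose B2 hB2 using fun s : Fin (N + 1) ↪ Fin n => cg_bad (D.general s)
  have h3 : ∃ B3 : Finset ℕ, ∀ q : ℕ, q.Prime → q ∉ B3 → ∀ Q : Ideal (𝓞 Qbar), Q.IsPrime →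
      (q : 𝓞 Qbar) ∈ Q →
      (0 < b → ∀ s : Fin N ↪ Fin n,
        (Matrix.of fun i (j : Fin N) => D.L (s i) j.succ).det ∉ Q) := by
    by_cases hb : 0 < b
    · choose B hB using fun s : Fin N ↪ Fin n => cg_bad (D.general_zero hb s)
      refine ⟨Finset.univ.biUnion B, ?_⟩
      intro q hq hqB Q hQ hqQ _ s
      apply hB s q hq _ Q hQ hqQ
      intro h
      exact hqB (Finset.mem_biUnion.mpr ⟨s, Finset.mem_univ _, h⟩)
    · exact ⟨∅, fun q _ _ Q _ _ h => absurd h hb⟩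
  obtain ⟨B3, hB3⟩ := h3
  refine ⟨B1 ∪ (Finset.univ.biUnion B2 ∪ B3), ?_⟩
  intro q hq hqB Q hQ hqQ
  rw [Finset.mem_union, Finset.mem_union, not_or, not_or] at hqB
  refine ⟨hB1 q hq hqB.1 Q hQ hqQ, ?_, hB3 q hq hqB.2.2 Q hQ hqQ⟩
  intro s
  apply hB2 s q hq _ Q hQ hqQ
  intro h
  exact hqB.2.1 (Finset.mem_biUnion.mpr ⟨s, Finset.mem_univ _, h⟩)

/-- The form is homogeneous. -/
theorem cg_scale {K : Type} [Field K] [Algebra K Qbar] {N n b : ℕ} (D : SymForm K N n b)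
    {F : Type} [Field F] (φ : 𝓞 K →+* F) (κ : Type) [Field κ] (j : F →+* κ)
    (ψ : 𝓞 Qbar →+* κ) (hψ : ∀ x : 𝓞 K, j (φ x) = ψ (algebraMap (𝓞 K) (𝓞 Qbar) x))
    (x : Fin (N + 1) → F) :
    j (D.G.eval₂ φ x) = ψ D.c * j (x 0) ^ b * ∏ i, ∑ k, ψ (D.L i k) * j (x k) := by
  have h1 : j (D.G.eval₂ φ x) =
      (D.G.map (algebraMap (𝓞 K) (𝓞 Qbar))).eval₂ ψ (fun k => j (x k)) := by
    rw [MvPolynomial.eval₂_map, MvPolynomial.eval₂_comp_left]
    have h2 : j.comp φ = ψ.comp (algebraMap (𝓞 K) (𝓞 Qbar)) := by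
      ext y
      exact hψ y
    rw [h2]
    rfl
  rw [h1, D.map_G, MvPolynomial.eval₂_mul, MvPolynomial.eval₂_mul, MvPolynomial.eval₂_C,
    MvPolynomial.eval₂_pow, MvPolynomial.eval₂_X, MvPolynomial.eval₂_prod]
  congr 1
  apply Finset.prod_congr rfl
  intro i _
  rw [MvPolynomial.eval₂_sum]
  apply Finset.sum_congr rfl
  intro k _
  rw [MvPolynomial.eval₂_mul, MvPolynomial.eval₂_C, MvPolynomial.eval₂_X]

theorem cg_at {K : Type} [Field K] [NumberField K] [Algebra K Qbar] {N n b : ℕ}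
    (D : SymForm K N n b) {p a : ℕ} (hp : p.Prime) (hp2 : p ≠ 2) (ha : a ≠ 0) {ζ : 𝓞 K}
    (hζ : IsPrimitiveRoot ζ (p ^ a)) (hnb : p ^ a ∣ n + b) (hn : N + 1 ≤ n)
    {C : Type} [NormedField C] [IsUltrametricDist C] [CharZero C] (hp1 : ‖(p : C)‖ < 1)
    (ι : K →+* C) :
    ∃ B : Finset ℕ, ∀ q : ℕ, ∀ hq : q.Prime, q ∉ B → ∀ Q : Ideal (𝓞 Qbar), Q.IsPrime →
      (q : 𝓞 Qbar) ∈ Q → ∀ σ : Qbar ≃ₐ[K] Qbar,
      (∀ x y : 𝓞 Qbar, (y : Qbar) = σ x → y - x ^ q ∈ Q) →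
      ∀ P : Equiv.Perm (Fin n), (∀ i j, σ (D.L i j : Qbar) = D.L (P i) j) →
      ∀ φ : 𝓞 K →+* ZMod q,
      (∀ x : 𝓞 K, φ x = 0 ↔ algebraMap (𝓞 K) (𝓞 Qbar) x ∈ Q) →
      (∀ (j : ZMod q →+* (𝓞 Qbar ⧸ Q)) (x : 𝓞 K),
        j (φ x) = Ideal.Quotient.mk Q (algebraMap (𝓞 K) (𝓞 Qbar) x)) →
      have : Fact q.Prime := ⟨hq⟩
      ∀ T : C, ((q : C) - 1) * T = (-1) ^ N * ι (charSum (p ^ a) ζ φ D.G : 𝓞 K) →
      ‖T - (((-1) ^ N * tw n N b P : ℤ) : C)‖ < 1 := by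
  classical
  obtain ⟨B, hB⟩ := cg_bad_form D
  refine ⟨B ∪ Finset.range (p ^ a + 1), ?_⟩
  intro q hq hqB Q hQ hqQ σ hσ P hP φ hφ hφ2 hqF T hT
  rw [Finset.mem_union, Finset.mem_range, not_or] at hqB
  obtain ⟨hqB, hqbig⟩ := hqB
  obtain ⟨hc, hgen, hgen0⟩ := hB q hq hqB Q hQ hqQ
  have hQm := cg_max hq hQ hqQ
  let _ : Field (𝓞 Qbar ⧸ Q) := Ideal.Quotient.field Q
  have hchar : CharP (𝓞 Qbar ⧸ Q) q := Pool.Agent.DS.frx_charP hq Q hqQ
  let _ : Algebra (ZMod q) (𝓞 Qbar ⧸ Q) := ZMod.algebra _ q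
  have hcq : (Fintype.card (ZMod q) : C) = (q : C) := by rw [ZMod.card]
  rw [← hcq] at hT
  have hm0 : 0 < p ^ a := pow_pos hp.pos a
  obtain ⟨hζ', hmq⟩ := rs_reduce hq hm0 (by omega) hζ hQ hqQ φ hφ
  set j : ZMod q →+* (𝓞 Qbar ⧸ Q) := algebraMap (ZMod q) (𝓞 Qbar ⧸ Q) with hj
  set ψ : 𝓞 Qbar →+* (𝓞 Qbar ⧸ Q) := Ideal.Quotient.mk Q with hψ
  have hG := fun x => cg_scale D φ (𝓞 Qbar ⧸ Q) j ψ (fun y => hφ2 j y) x
  let g : 𝓞 K →+* C := ι.comp (algebraMap (𝓞 K) K)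
  have hginj : Function.Injective g := ι.injective.comp RingOfIntegers.coe_injective
  set f : (Fin (N + 1) → ZMod q) → C := fun x =>
    g (residueSymbol (p ^ a) ζ φ (D.G.eval₂ φ x)) with hf
  have hfz : ∀ x, f x = 0 ↔ D.G.eval₂ φ x = 0 := by
    intro x
    constructor
    · intro h
      by_contra hne
      obtain ⟨i, hi⟩ := rs_symbol hm0 hζ' hmq hne
      rw [hf] at h
      simp only at h
      rw [hi, map_eq_zero_iff g hginj] at h
      exact pow_ne_zero _ (hζ.ne_zero hm0.ne') h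
    · intro h
      rw [hf]
      simp only
      rw [h, rs_symbol_zero hm0 hζ' hmq, map_zero]
  have hscale : ∀ (c : ZMod q) (x : Fin (N + 1) → ZMod q),
      D.G.eval₂ φ (c • x) = c ^ (n + b) * D.G.eval₂ φ x := by
    intro c x
    apply j.injective
    rw [hG, map_mul, hG, map_pow]
    have h1 : ∀ i, ∑ k, ψ (D.L i k) * j ((c • x) k) = j c * ∑ k, ψ (D.L i k) * j (x k) := by
      intro i
      rw [Finset.mul_sum]
      apply Finset.sum_congr rfl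
      intro k _
      rw [Pi.smul_apply, smul_eq_mul, map_mul]
      ring
    rw [Finset.prod_congr rfl (fun i _ => h1 i), Finset.prod_mul_distrib, Finset.prod_const,
      Finset.card_univ, Fintype.card_fin, Pi.smul_apply, smul_eq_mul, map_mul]
    ring
  obtain ⟨c, hc1, t, ht1, ht2⟩ := Pool.Agent.TC.tc13_pr f (by
    rw [hfz]
    apply j.injective
    rw [hG, map_zero]
    have h1 : ∏ i, ∑ k, ψ (D.L i k) * j ((0 : Fin (N + 1) → ZMod q) k) = 0 := by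
      apply Finset.prod_eq_zero (Finset.mem_univ (⟨0, by omega⟩ : Fin n))
      simp
    rw [h1, mul_zero]) (by
    intro c x hc0
    rw [hf]
    simp only
    rw [hscale, rs_symbol_mul hmq hc0 hnb]) (by
    intro x
    by_cases hx : D.G.eval₂ φ x = 0
    · exact Or.inl ((hfz x).mpr hx)
    · right
      obtain ⟨i, hi⟩ := rs_symbol hm0 hζ' hmq hx
      rw [hf]
      simp only
      rw [hi]
      exact rs_zeta ι hp hp2 hp1 hζ.pow_eq_one i)
  -- the trace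
  have hq1 : ((Fintype.card (ZMod q) : C) - 1) ≠ 0 := by
    rw [ZMod.card, sub_ne_zero]
    intro h
    have h3 : q = 1 := by exact_mod_cast h
    exact hq.one_lt.ne' h3
  have hTt : T = (-1) ^ N * t := by
    apply mul_left_cancel₀ hq1
    rw [hT, mul_left_comm, ht1]
    congr 1
    change g (charSum (p ^ a) ζ φ D.G) = ∑ x, f x
    unfold charSum
    rw [map_sum]
  -- the count
  have hF : ∀ c : 𝓞 Qbar ⧸ Q, c ^ Fintype.card (ZMod q) = c →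
      c ∈ Set.range (algebraMap (ZMod q) (𝓞 Qbar ⧸ Q)) := by
    intro c hc
    rw [ZMod.card] at hc
    obtain ⟨y, hy⟩ := rm_root_aux j hc
    exact ⟨y, hy⟩
  set l : Fin n → Fin (N + 1) → (𝓞 Qbar ⧸ Q) := fun i k => ψ (D.L i k) with hl
  have hlP : ∀ i k, l (P i) k = l i k ^ Fintype.card (ZMod q) := by
    intro i k
    rw [ZMod.card, hl]
    simp only
    rw [← map_pow, ← sub_eq_zero, ← map_sub]
    rw [hψ, Ideal.Quotient.eq_zero_iff_mem]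
    exact hσ _ _ (hP i k).symm
  have hgen' : ∀ s : Fin (N + 1) ↪ Fin n, (Matrix.of fun i j => l (s i) j).det ≠ 0 := by
    intro s h0
    apply hgen s
    rw [← Ideal.Quotient.eq_zero_iff_mem, ← hψ, RingHom.map_det]
    exact h0
  have hpq : (p : ℤ) ∣ (Fintype.card (ZMod q) : ℤ) - 1 := by
    rw [ZMod.card]
    have h1 : p ∣ q - 1 := (dvd_pow_self p ha).trans hmq
    have h2 := hq.one_lt
    have h3 : ((q - 1 : ℕ) : ℤ) = (q : ℤ) - 1 := by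
      rw [Nat.cast_sub (by omega), Nat.cast_one]
    rw [← h3]
    exact_mod_cast h1
  have hne : ∀ x, f x ≠ 0 ↔ (b ≠ 0 → x 0 ≠ 0) ∧ ∀ i, ∑ k, l i k * j (x k) ≠ 0 := by
    intro x
    rw [Ne, hfz, ← map_eq_zero_iff j j.injective, hG, mul_eq_zero, mul_eq_zero, not_or, not_or,
      Finset.prod_eq_zero_iff]
    have h1 : ψ D.c ≠ 0 := by
      rw [hψ, Ne, Ideal.Quotient.eq_zero_iff_mem]
      exact hc
    have h2 : ¬ j (x 0) ^ b = 0 ↔ (b ≠ 0 → x 0 ≠ 0) := by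
      rw [pow_eq_zero_iff', map_eq_zero]
      tauto
    rw [h2]
    push Not
    constructor
    · rintro ⟨⟨_, h3⟩, h4⟩
      exact ⟨h3, fun i => h4 i (Finset.mem_univ _)⟩
    · rintro ⟨h3, h4⟩
      exact ⟨⟨h1, h3⟩, fun i _ => h4 i⟩
  obtain ⟨c', hc'1, hc'2⟩ : ∃ c' : ℤ, (Nat.card {x // f x ≠ 0} : ℤ) =
      ((Fintype.card (ZMod q) : ℤ) - 1) * c' ∧ (p : ℤ) ∣ c' - tw n N b P := by
    by_cases hb : b = 0
    · subst hb
      obtain ⟨c', h1, h2⟩ := cn_zero hF l P hlP hn hgen' hpq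
      refine ⟨c', ?_, h2⟩
      rw [← h1]
      congr 1
      apply Nat.card_congr
      apply Equiv.subtypeEquivRight
      intro x
      rw [hne]
      simp
      rfl
    · obtain ⟨c', h1, h2⟩ := cn_pos hF hb l P hlP hn hgen' (by
        intro s h0
        apply hgen0 (Nat.pos_of_ne_zero hb) s
        rw [← Ideal.Quotient.eq_zero_iff_mem, ← hψ, RingHom.map_det]
        exact h0) hpq
      refine ⟨c', ?_, h2⟩
      rw [← h1]
      congr 1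
      apply Nat.card_congr
      apply Equiv.subtypeEquivRight
      intro x
      rw [hne]
      constructor
      · rintro ⟨h3, h4⟩
        exact ⟨h3 hb, h4⟩
      · rintro ⟨h3, h4⟩
        exact ⟨fun _ => h3, h4⟩
  have hcc : (c : ℤ) = c' := by
    rw [← hc1] at hc'1
    have h1 : ((Fintype.card (ZMod q) : ℤ) - 1) ≠ 0 := by
      rw [ZMod.card]
      have := hq.one_lt
      omega
    apply mul_left_cancel₀ h1
    rw [← hc'1]
    have h2 : 1 ≤ Fintype.card (ZMod q) := Fintype.card_pos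
    push_cast [Nat.cast_sub h2]
    ring
  rw [← hcc] at hc'2
  obtain ⟨e, he⟩ := hc'2
  have h5 : T - (((-1) ^ N * tw n N b P : ℤ) : C) =
      (-1) ^ N * ((t - c) + (p : C) * (e : C)) := by
    have h6 : (c : C) - (tw n N b P : C) = (p : C) * (e : C) := by exact_mod_cast he
    rw [hTt, ← h6]
    push_cast
    ring
  rw [h5, norm_mul, norm_pow, norm_neg, norm_one, one_pow, one_mul]
  apply lt_of_le_of_lt (IsUltrametricDist.norm_add_le_max _ _)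
  apply max_lt ht2
  rw [norm_mul]
  exact lt_of_le_of_lt (mul_le_of_le_one_right (norm_nonneg _) (gr_int_le e)) hp1

theorem cg_main {K : Type} [Field K] [NumberField K] [Algebra K Qbar] {N n b : ℕ}
    (D : SymForm K N n b) {p a : ℕ} (hp : p.Prime) (hp2 : p ≠ 2) (ha : a ≠ 0) {ζ : 𝓞 K}
    (hζ : IsPrimitiveRoot ζ (p ^ a)) (hnb : p ^ a ∣ n + b) (hn : N + 1 ≤ n)
    {C : Type} [NormedField C] [IsUltrametricDist C] [CharZero C] (hp1 : ‖(p : C)‖ < 1)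
    (ι : K →+* C) :
    ∃ B : Finset ℕ, ∀ q : ℕ, q.Prime → q ∉ B → ∀ Q : Ideal (𝓞 Qbar), Q.IsPrime →
      (q : 𝓞 Qbar) ∈ Q → ∀ σ : Qbar ≃ₐ[K] Qbar,
      (∀ x y : 𝓞 Qbar, (y : Qbar) = σ x → y - x ^ q ∈ Q) →
      ∀ P : Equiv.Perm (Fin n), (∀ i j, σ (D.L i j : Qbar) = D.L (P i) j) →
      ∃ (F : Type) (_ : Field F) (_ : Fintype F) (φ : 𝓞 K →+* F), Fintype.card F = q ∧
      (∀ x : 𝓞 K, φ x = 0 ↔ algebraMap (𝓞 K) (𝓞 Qbar) x ∈ Q) ∧
      ∀ T : C, ((Fintype.card F : C) - 1) * T = (-1) ^ N * ι (charSum (p ^ a) ζ φ D.G : 𝓞 K) →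
      ‖T - (((-1) ^ N * tw n N b P : ℤ) : C)‖ < 1 := by
  obtain ⟨B, hB⟩ := cg_at D hp hp2 ha hζ hnb hn hp1 ι
  refine ⟨B, ?_⟩
  intro q hq hqB Q hQ hqQ σ hσ P hP
  have hqF : Fact q.Prime := ⟨hq⟩
  obtain ⟨φ, hφ, hφ2⟩ := ft_phi hq hQ hqQ hσ
  refine ⟨ZMod q, inferInstance, inferInstance, φ, ZMod.card q, hφ, ?_⟩
  intro T hT
  rw [ZMod.card] at hT
  exact hB q hq hqB Q hQ hqQ σ hσ P hP φ hφ hφ2 T hT

end Pool.Agent.TF
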