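import Pool.Agent.Lib_helper61.TB.DefsF
import Pool.Agent.Lib_helper61.TB.Det
import Pool.Agent.Lib_helper61.TB.NP
import Pool.Agent.Lib_helper61.TT.PL
import Pool.Agent.Lib_helper61.TT.RM

/-!
# Facts at Frobenius elements
-/

set_option autoImplicit false

namespace Pool.Agent.TF

open Pool.Agent.TB
open NumberField Topology Polynomial
open Pool.Agent.TT (Qbar cyc rm_exists rm_root pl_frob_pow residueSymbol)
open Pool.Agent.DS (GQ Induces FrobIn)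

/-- A Frobenius element of degree one gives a homomorphism to the prime field. -/
theorem ft_phi {K : Type} [Field K] [NumberField K] [Algebra K Qbar] {q : ℕ} (hq : q.Prime)
    {Q : Ideal (𝓞 Qbar)} (hQ : Q.IsPrime) (hqQ : (q : 𝓞 Qbar) ∈ Q) {σ : Qbar ≃ₐ[K] Qbar}
    (hσ : ∀ x y : 𝓞 Qbar, (y : Qbar) = σ x → y - x ^ q ∈ Q) :
    ∃ φ : 𝓞 K →+* ZMod q, (∀ x : 𝓞 K, φ x = 0 ↔ algebraMap (𝓞 K) (𝓞 Qbar) x ∈ Q) ∧
      ∀ (j : ZMod q →+* (𝓞 Qbar ⧸ Q)) (x : 𝓞 K),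
        j (φ x) = Ideal.Quotient.mk Q (algebraMap (𝓞 K) (𝓞 Qbar) x) := by
  have : Fact q.Prime := ⟨hq⟩
  have hchar : CharP (𝓞 Qbar ⧸ Q) q := Pool.Agent.DS.frx_charP hq Q hqQ
  let f : 𝓞 K →+* (𝓞 Qbar ⧸ Q) := (Ideal.Quotient.mk Q).comp (algebraMap (𝓞 K) (𝓞 Qbar))
  have hf : ∀ x, f x ^ q = f x := by
    intro x
    have h1 := hσ (algebraMap (𝓞 K) (𝓞 Qbar) x) (algebraMap (𝓞 K) (𝓞 Qbar) x) (by
      have h2 : ((algebraMap (𝓞 K) (𝓞 Qbar) x : 𝓞 Qbar) : Qbar) = algebraMap K Qbar (x : K) := rfl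
      rw [h2, AlgEquiv.commutes])
    rw [← Ideal.Quotient.eq_zero_iff_mem, map_sub, map_pow, sub_eq_zero] at h1
    exact h1.symm
  obtain ⟨φ, hφ⟩ := rm_exists f hf
  have hcastinj : Function.Injective (ZMod.castHom (dvd_refl q) (𝓞 Qbar ⧸ Q)) :=
    ZMod.castHom_injective _
  refine ⟨φ, ?_, ?_⟩
  · intro x
    rw [← Ideal.Quotient.eq_zero_iff_mem]
    change φ x = 0 ↔ f x = 0
    rw [← hφ x, map_eq_zero_iff _ hcastinj]
  · intro j x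
    have h1 : j = ZMod.castHom (dvd_refl q) (𝓞 Qbar ⧸ Q) := Subsingleton.elim _ _
    rw [h1, hφ]
    rfl

/-- Trace functions with the traces of the same character sums: the values at the powers of a
Frobenius element. -/
theorem ft_pow {K : Type} [Field K] [NumberField K] [Algebra K Qbar] {N : ℕ} {m : ℕ} {ζ : 𝓞 K}
    {G : MvPolynomial (Fin (N + 1)) (𝓞 K)} {q : ℕ} (hq : q.Prime)
    {Q : Ideal (𝓞 Qbar)} (hQ : Q.IsPrime) (hqQ : (q : 𝓞 Qbar) ∈ Q) {σ : Qbar ≃ₐ[K] Qbar}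
    (hσ : ∀ x y : 𝓞 Qbar, (y : Qbar) = σ x → y - x ^ q ∈ Q) :
    ∃ t : ℕ → K, ∀ (k : Type) [Field k] [CharZero k] (T : (Qbar ≃ₐ[K] Qbar) → k) (ι : K →+* k),
      (∀ (F : Type) [Field F] [Fintype F] (φ : 𝓞 K →+* F),
      (∀ x : 𝓞 K, φ x = 0 ↔ algebraMap (𝓞 K) (𝓞 Qbar) x ∈ Q) →
      ∀ σ : Qbar ≃ₐ[K] Qbar, (∀ x y : 𝓞 Qbar, (y : Qbar) = σ x → y - x ^ Fintype.card F ∈ Q) →
        ((Fintype.card F : k) - 1) * T σ⁻¹ = (-1) ^ N * ι (charSum m ζ φ G : 𝓞 K)) →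
      ∀ r : ℕ, 1 ≤ r → T (σ⁻¹ ^ r) = ι (t r) := by
  have hqF : Fact q.Prime := ⟨hq⟩
  obtain ⟨φp, hφp, _⟩ := ft_phi hq hQ hqQ hσ
  let _ : ∀ r, Fintype (GaloisField q r) := fun r => Fintype.ofFinite _
  have hcardF : ∀ r, 1 ≤ r → Fintype.card (GaloisField q r) = q ^ r := by
    intro r hr
    rw [← Nat.card_eq_fintype_card]
    exact GaloisField.card q r (by omega)
  let φ : ∀ r, 𝓞 K →+* GaloisField q r := fun r =>
    (algebraMap (ZMod q) (GaloisField q r)).comp φp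
  refine ⟨fun r => (-1) ^ N * ((charSum m ζ (φ r) G : 𝓞 K) : K) / ((q : K) ^ r - 1), ?_⟩
  intro k _ _ T ι hT r hr
  have h1 := hT (GaloisField q r) (φ r) (by
    intro x
    rw [← hφp]
    exact map_eq_zero_iff _ (algebraMap (ZMod q) (GaloisField q r)).injective) (σ ^ r) (by
    rw [hcardF r hr]
    exact pl_frob_pow hσ r)
  rw [hcardF r hr, Nat.cast_pow] at h1
  have h2 : ((q : k) ^ r - 1) ≠ 0 := by
    rw [sub_ne_zero]
    intro h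
    have h3 : q ^ r = 1 := by exact_mod_cast h
    rcases Nat.pow_eq_one.mp h3 with h4 | h4
    · exact hq.one_lt.ne' h4
    · omega
  rw [← inv_pow] at h1
  change T (σ⁻¹ ^ r) = ι ((-1) ^ N * ((charSum m ζ (φ r) G : 𝓞 K) : K) / ((q : K) ^ r - 1))
  rw [map_div₀, map_mul, map_pow, map_neg, map_one, map_sub, map_pow, map_natCast, map_one,
    eq_div_iff h2, mul_comm]
  exact h1

/-- **Compatibility of representations with the same traces.** -/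
theorem ft_compatible {K : Type} [Field K] [NumberField K] [Algebra K Qbar] {N : ℕ} {m : ℕ}
    {ζ : 𝓞 K} {G : MvPolynomial (Fin (N + 1)) (𝓞 K)} {p ℓ : ℕ} [Fact p.Prime] [Fact ℓ.Prime]
    (ip : K →+* ℂ_[p]) (il : K →+* PadicAlgCl ℓ) {d : ℕ}
    (ρ : (Qbar ≃ₐ[K] Qbar) →* Matrix (Fin d) (Fin d) ℂ_[p]) {V : Type} [AddCommGroup V]
    [Module (PadicAlgCl ℓ) V] [Module.Finite (PadicAlgCl ℓ) V]
    (π : Representation (PadicAlgCl ℓ) (Qbar ≃ₐ[K] Qbar) V)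
    (hρ : HasTraces (fun σ => (ρ σ).trace) ip m ζ G)
    (hπ : HasTraces (fun σ => LinearMap.trace (PadicAlgCl ℓ) V (π σ)) il m ζ G) :
    Compatible ip il (fun _ : Fin 1 => d) (fun _ => ρ) π := by
  obtain ⟨B₁, hB₁⟩ := hρ
  obtain ⟨B₂, hB₂⟩ := hπ
  refine ⟨B₁ ∪ B₂, ?_⟩
  intro q hq hqB Q hQ hqQ σ hσ
  rw [Finset.mem_union, not_or] at hqB
  obtain ⟨t, ht⟩ := ft_pow (N := N) (m := m) (ζ := ζ) (G := G) hq hQ hqQ hσ
  have h1 := ht ℂ_[p] (fun σ => (ρ σ).trace) ip (hB₁ q hq hqB.1 Q hQ hqQ)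
  have h2 := ht (PadicAlgCl ℓ) (fun σ => LinearMap.trace (PadicAlgCl ℓ) V (π σ)) il
    (hB₂ q hq hqB.2 Q hQ hqQ)
  have hinj1 : Function.Injective (Matrix.toLin' (ρ σ⁻¹)) := by
    intro x y hxy
    have h3 : Matrix.toLin' (ρ σ) (Matrix.toLin' (ρ σ⁻¹) x) =
        Matrix.toLin' (ρ σ) (Matrix.toLin' (ρ σ⁻¹) y) := by rw [hxy]
    rw [← Matrix.toLin'_mul_apply, ← Matrix.toLin'_mul_apply, ← map_mul, mul_inv_cancel, map_one,
      Matrix.toLin'_one, LinearMap.id_apply, LinearMap.id_apply] at h3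
    exact h3
  have hinj2 : Function.Injective (π σ⁻¹) := by
    intro x y hxy
    have h3 : π σ (π σ⁻¹ x) = π σ (π σ⁻¹ y) := by rw [hxy]
    rw [← Module.End.mul_apply, ← Module.End.mul_apply, ← map_mul, mul_inv_cancel, map_one,
      Module.End.one_apply, Module.End.one_apply] at h3
    exact h3
  obtain ⟨f, hf1, hf2⟩ := np_charpoly ip il (Matrix.toLin' (ρ σ⁻¹)) (π σ⁻¹) hinj1 hinj2 t (by
    intro r hr
    have h3 : ρ (σ⁻¹ ^ r) = ρ σ⁻¹ ^ r := map_pow ρ _ _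
    rw [← h1 r hr, h3, ← Matrix.toLin'_pow, Matrix.trace_toLin'_eq]) (by
    intro r hr
    have h3 : π (σ⁻¹ ^ r) = π σ⁻¹ ^ r := map_pow π _ _
    rw [← h2 r hr, h3])
  refine ⟨f, ?_, hf2⟩
  rw [Fin.prod_univ_one, ← hf1, Matrix.charpoly_toLin']

end Pool.Agent.TF
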