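import Pool.Agent.Lib_helper61.TB.CMain

/-!
# Products of norm forms
-/

set_option autoImplicit false

namespace Pool.Agent.TF

open Pool.Agent.TB
open NumberField Topology Polynomial
open Pool.Agent.TT (Qbar cyc rm_root_aux pl_frob_pow residueSymbol)
open Pool.Agent.Heart (heartTr heartDim heartWt permMat pm span_of_heartTr heart_gram)

/-- Trace functions with the traces of the same sums: the values at the powers of a Frobenius
element. -/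
theorem fa_pow {K : Type} [Field K] [NumberField K] [Algebra K Qbar] (e : ℕ) (c : K)
    (S : ∀ (F : Type) [Field F] [Fintype F], (𝓞 K →+* F) → 𝓞 K) {q : ℕ} (hq : q.Prime)
    {Q : Ideal (𝓞 Qbar)} (hQ : Q.IsPrime) (hqQ : (q : 𝓞 Qbar) ∈ Q) {σ : Qbar ≃ₐ[K] Qbar}
    (hσ : ∀ x y : 𝓞 Qbar, (y : Qbar) = σ x → y - x ^ q ∈ Q) :
    ∃ t : ℕ → K, ∀ (k : Type) [Field k] [CharZero k] (T : (Qbar ≃ₐ[K] Qbar) → k) (ι : K →+* k),
      (∀ (F : Type) [Field F] [Fintype F] (φ : 𝓞 K →+* F),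
      (∀ x : 𝓞 K, φ x = 0 ↔ algebraMap (𝓞 K) (𝓞 Qbar) x ∈ Q) →
      ∀ σ : Qbar ≃ₐ[K] Qbar, (∀ x y : 𝓞 Qbar, (y : Qbar) = σ x → y - x ^ Fintype.card F ∈ Q) →
        ((Fintype.card F : k) - 1) ^ e * T σ⁻¹ = ι c * ι (S F φ : 𝓞 K)) →
      ∀ r : ℕ, 1 ≤ r → T (σ⁻¹ ^ r) = ι (t r) := by
  have hqF : Fact q.Prime := ⟨hq⟩
  obtain ⟨φp, hφp, _⟩ := ft_phi hq hQ hqQ hσ
  let _ : ∀ r, Fintype (GaloisField q r) := fun r => Fintype.ofFinite _
  have hcardF : ∀ r, 1 ≤ r → Fintype.card (GaloisField q r) = q ^ r := by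
    intro r hr
    rw [← Nat.card_eq_fintype_card]
    exact GaloisField.card q r (by omega)
  let φ : ∀ r, 𝓞 K →+* GaloisField q r := fun r =>
    (algebraMap (ZMod q) (GaloisField q r)).comp φp
  refine ⟨fun r => c * ((S (GaloisField q r) (φ r) : 𝓞 K) : K) / ((q : K) ^ r - 1) ^ e, ?_⟩
  intro k _ _ T ι hT r hr
  have h1 := hT (GaloisField q r) (φ r) (by
    intro x
    rw [← hφp]
    exact map_eq_zero_iff _ (algebraMap (ZMod q) (GaloisField q r)).injective) (σ ^ r) (by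
    rw [hcardF r hr]
    exact pl_frob_pow hσ r)
  rw [hcardF r hr, Nat.cast_pow] at h1
  have h2 : ((q : k) ^ r - 1) ^ e ≠ 0 := by
    apply pow_ne_zero
    rw [sub_ne_zero]
    intro h
    have h3 : q ^ r = 1 := by exact_mod_cast h
    rcases Nat.pow_eq_one.mp h3 with h4 | h4
    · exact hq.one_lt.ne' h4
    · omega
  rw [← inv_pow] at h1
  change T (σ⁻¹ ^ r) = ι (c * ((S (GaloisField q r) (φ r) : 𝓞 K) : K) / ((q : K) ^ r - 1) ^ e)
  rw [map_div₀, map_mul, map_pow, map_sub, map_pow, map_natCast, map_one,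
    eq_div_iff h2, mul_comm]
  exact h1

/-- **Compatibility of representations with the same traces.** -/
theorem fa_compatible {K : Type} [Field K] [NumberField K] [Algebra K Qbar] (e : ℕ) (c : K)
    (S : ∀ (F : Type) [Field F] [Fintype F], (𝓞 K →+* F) → 𝓞 K)
    {p ℓ : ℕ} [Fact p.Prime] [Fact ℓ.Prime]
    (ip : K →+* ℂ_[p]) (il : K →+* PadicAlgCl ℓ) {d : ℕ}
    (ρ : (Qbar ≃ₐ[K] Qbar) →* Matrix (Fin d) (Fin d) ℂ_[p]) {V : Type} [AddCommGroup V]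
    [Module (PadicAlgCl ℓ) V] [Module.Finite (PadicAlgCl ℓ) V]
    (π : Representation (PadicAlgCl ℓ) (Qbar ≃ₐ[K] Qbar) V)
    (hρ : ∃ B : Finset ℕ, ∀ q : ℕ, q.Prime → q ∉ B → ∀ 𝔓 : Ideal (𝓞 Qbar), 𝔓.IsPrime →
      (q : 𝓞 Qbar) ∈ 𝔓 → ∀ (F : Type) [Field F] [Fintype F] (φ : 𝓞 K →+* F),
      (∀ x : 𝓞 K, φ x = 0 ↔ algebraMap (𝓞 K) (𝓞 Qbar) x ∈ 𝔓) →
      ∀ σ : Qbar ≃ₐ[K] Qbar, (∀ x y : 𝓞 Qbar, (y : Qbar) = σ x → y - x ^ Fintype.card F ∈ 𝔓) →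
        ((Fintype.card F : ℂ_[p]) - 1) ^ e * (ρ σ⁻¹).trace = ip c * ip (S F φ : 𝓞 K))
    (hπ : ∃ B : Finset ℕ, ∀ q : ℕ, q.Prime → q ∉ B → ∀ 𝔓 : Ideal (𝓞 Qbar), 𝔓.IsPrime →
      (q : 𝓞 Qbar) ∈ 𝔓 → ∀ (F : Type) [Field F] [Fintype F] (φ : 𝓞 K →+* F),
      (∀ x : 𝓞 K, φ x = 0 ↔ algebraMap (𝓞 K) (𝓞 Qbar) x ∈ 𝔓) →
      ∀ σ : Qbar ≃ₐ[K] Qbar, (∀ x y : 𝓞 Qbar, (y : Qbar) = σ x → y - x ^ Fintype.card F ∈ 𝔓) →
        ((Fintype.card F : PadicAlgCl ℓ) - 1) ^ e * LinearMap.trace (PadicAlgCl ℓ) V (π σ⁻¹) =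
          il c * il (S F φ : 𝓞 K)) :
    Compatible ip il (fun _ : Fin 1 => d) (fun _ => ρ) π := by
  obtain ⟨B₁, hB₁⟩ := hρ
  obtain ⟨B₂, hB₂⟩ := hπ
  refine ⟨B₁ ∪ B₂, ?_⟩
  intro q hq hqB Q hQ hqQ σ hσ
  rw [Finset.mem_union, not_or] at hqB
  obtain ⟨t, ht⟩ := fa_pow e c S hq hQ hqQ hσ
  have h1 := ht ℂ_[p] (fun σ => (ρ σ).trace) ip (hB₁ q hq hqB.1 Q hQ hqQ)
  have h2 := ht (PadicAlgCl ℓ) (fun σ => LinearMap.trace (PadicAlgCl ℓ) V (π σ)) il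
    (hB₂ q hq hqB.2 Q hQ hqQ)
  have hinj1 : Function.Injective (Matrix.toLin' (ρ σ⁻¹)) := by
    intro x y hxy
    have h3 : Matrix.toLin' (ρ σ) (Matrix.toLin' (ρ σ⁻¹) x) =
        Matrix.toLin' (ρ σ) (Matrix.toLin' (ρ σ⁻¹) y) := by rw [hxy]
    rw [← Matrix.toLin'_mul_apply, ← Matrix.toLin'_mul_apply, ← map_mul, mul_inv_cancel, map_one,
      Matrix.toLin'_one, LinearMap.id_apply, LinearMap.id_apply] at h3
    exact h3
  have hinj2 : Function.Injective (π σ⁻¹) := by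
    intro x y hxy
    have h3 : π σ (π σ⁻¹ x) = π σ (π σ⁻¹ y) := by rw [hxy]
    rw [← Module.End.mul_apply, ← Module.End.mul_apply, ← map_mul, mul_inv_cancel, map_one,
      Module.End.one_apply, Module.End.one_apply] at h3
    exact h3
  obtain ⟨f, hf1, hf2⟩ := np_charpoly ip il (Matrix.toLin' (ρ σ⁻¹)) (π σ⁻¹) hinj1 hinj2 t (by
    intro r hr
    have h3 : ρ (σ⁻¹ ^ r) = ρ σ⁻¹ ^ r := map_pow ρ _ _
    rw [← h1 r hr, h3, ← Matrix.toLin'_pow, Matrix.trace_toLin'_eq]) (by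
    intro r hr
    have h3 : π (σ⁻¹ ^ r) = π σ⁻¹ ^ r := map_pow π _ _
    rw [← h2 r hr, h3])
  refine ⟨f, ?_, hf2⟩
  rw [Fin.prod_univ_one, ← hf1, Matrix.charpoly_toLin']

/-- The Gram matrix of a product of groups. -/
theorem fa_kron {k : Type} [Field k] {Q : ℕ} {I : Fin Q → Type} [∀ β, Fintype (I β)]
    [∀ β, DecidableEq (I β)] (M : ∀ β, Matrix (I β) (I β) k) (hM : ∀ β, (M β).det ≠ 0) :
    (Matrix.of fun x y : (∀ β, I β) => ∏ β, M β (x β) (y β)).det ≠ 0 := by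
  classical
  set A : Matrix (∀ β, I β) (∀ β, I β) k := Matrix.of fun x y => ∏ β, M β (x β) (y β) with hA
  set A' : Matrix (∀ β, I β) (∀ β, I β) k := Matrix.of fun x y => ∏ β, (M β)⁻¹ (x β) (y β)
    with hA'
  have h1 : A * A' = 1 := by
    ext x z
    rw [Matrix.mul_apply]
    have h2 : ∑ y, A x y * A' y z = ∑ y : (∀ β, I β), ∏ β, (M β (x β) (y β) * (M β)⁻¹ (y β) (z β)) := by
      apply Finset.sum_congr rfl
      intro y _
      rw [hA, hA', Matrix.of_apply, Matrix.of_apply, Finset.prod_mul_distrib]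
    have h3 := Finset.prod_univ_sum (fun β => (Finset.univ : Finset (I β)))
      (fun β y => M β (x β) y * (M β)⁻¹ y (z β))
    rw [Fintype.piFinset_univ] at h3
    rw [h2, ← h3]
    have h4 : ∀ β, ∑ y, M β (x β) y * (M β)⁻¹ y (z β) = (1 : Matrix (I β) (I β) k) (x β) (z β) := by
      intro β
      rw [← Matrix.mul_apply, Matrix.mul_nonsing_inv _ (isUnit_iff_ne_zero.mpr (hM β))]
    rw [Finset.prod_congr rfl (fun β _ => h4 β)]
    by_cases hxz : x = z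
    · rw [hxz, Matrix.one_apply_eq]
      apply Finset.prod_eq_one
      intro β _
      rw [Matrix.one_apply_eq]
    · rw [Matrix.one_apply_ne hxz]
      obtain ⟨β, hβ⟩ := Function.ne_iff.mp hxz
      apply Finset.prod_eq_zero (Finset.mem_univ β)
      rw [Matrix.one_apply_ne hβ]
  intro h0
  have h2 := congrArg Matrix.det h1
  rw [Matrix.det_mul, h0, zero_mul, Matrix.det_one] at h2
  exact zero_ne_one h2

/-- A representation with `d ^ 2` independent operators is irreducible. -/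
theorem fa_irred {C : Type} [NormedField C] [IsUltrametricDist C] {G J : Type} [Group G] [Fintype J] {d : ℕ}
    (ρ : G →* Matrix (Fin d) (Fin d) C) (hJ : Fintype.card J = d * d)
    (g : J → G) (hg : LinearIndependent C (fun a => ρ (g a)))
    (W : Submodule C (Fin d → C)) (hW : ∀ g, ∀ w ∈ W, (ρ g).mulVec w ∈ W) : W = ⊥ ∨ W = ⊤ := by
  have e : Fin d × Fin d ≃ J := Fintype.equivOfCardEq (by
    rw [hJ, Fintype.card_prod, Fintype.card_fin])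
  apply gram_irred ρ (fun a => g (e a)) _ W hW
  exact hg.comp e e.injective

end Pool.Agent.TF
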