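import Pool.Agent.Lib_helper61.TB.DefsE
import Pool.Agent.Lib_helper61.TB.Fam
import Pool.Agent.Lib_helper7.TB.Main

/-!
# Arbitrary residual representations
-/

set_option autoImplicit false

namespace Pool.Agent.TF

open Pool.Agent.TB
open NumberField Topology Polynomial
open Pool.Agent.TT (Qbar cyc rm_root_aux pl_frob_pow residueSymbol)

/-- Roots of unity of `p`-power order are close to `1`. -/
theorem er_zeta {K C : Type} [Field K] [NormedField C] [IsUltrametricDist C] (ι : K →+* C) {p a : ℕ}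
    (hp : p.Prime) (hp1 : ‖(p : C)‖ < 1) {ζ : 𝓞 K} (hζ : ζ ^ p ^ a = 1) (j : ℕ) :
    ‖ι ((ζ ^ j : 𝓞 K) : K) - 1‖ < 1 := by
  by_cases hp2 : p = 2
  · subst hp2
    have h0 : (ζ ^ j) ^ 2 ^ a = 1 := by rw [← pow_mul, mul_comm, pow_mul, hζ, one_pow]
    obtain ⟨r, hr⟩ := exists_add_pow_prime_pow_eq hp (ζ ^ j) (-1) a
    obtain ⟨r', hr'⟩ : ∃ r' : 𝓞 K, (ζ ^ j + -1) ^ 2 ^ a = ((2 : ℕ) : 𝓞 K) * r' := by
      rw [hr, h0]
      rcases Nat.eq_zero_or_pos a with ha | ha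
      · subst ha
        exact ⟨ζ ^ j * -1 * r, by push_cast; ring⟩
      · have heven : Even (2 ^ a) := by
          rw [Nat.even_pow]
          exact ⟨even_two, ha.ne'⟩
        rw [heven.neg_one_pow]
        exact ⟨1 + ζ ^ j * -1 * r, by push_cast; ring⟩
    have h1 : (ι ((ζ ^ j : 𝓞 K) : K) - 1) ^ 2 ^ a = ((2 : ℕ) : C) * ι (r' : K) := by
      have h2 := congrArg (fun z : 𝓞 K => ι (z : K)) hr'
      simp only [map_pow, map_add, map_neg, map_one, map_mul, map_natCast] at h2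
      simp only [map_pow, sub_eq_add_neg]
      exact h2
    by_contra hcon
    push Not at hcon
    have h3 : 1 ≤ ‖(ι ((ζ ^ j : 𝓞 K) : K) - 1) ^ 2 ^ a‖ := by
      rw [norm_pow]
      exact one_le_pow₀ hcon
    rw [h1, norm_mul] at h3
    have h4 : ‖((2 : ℕ) : C)‖ * ‖ι (r' : K)‖ < 1 :=
      lt_of_le_of_lt (mul_le_of_le_one_right (norm_nonneg _) (rs_ring ι r')) hp1
    linarith
  · exact rs_zeta ι hp hp2 hp1 hζ j

/-- The sum of the symbols and the number of points are congruent. -/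
theorem er_strata {K : Type} [Field K] {p a : ℕ} (hp : p.Prime) {ζ : 𝓞 K}
    (hζ : IsPrimitiveRoot ζ (p ^ a))
    {C : Type} [NormedField C] [IsUltrametricDist C] (hp1 : ‖(p : C)‖ < 1)
    (ι : K →+* C) {s : ℕ} (S : Fin s → Stratum K) {q : ℕ} [hq : Fact q.Prime] (φ : 𝓞 K →+* ZMod q)
    (hφ : IsPrimitiveRoot (φ ζ) (p ^ a)) (hmq : p ^ a ∣ q - 1) :
    ‖ι (strataSum (p ^ a) ζ φ S : 𝓞 K) - ((strataCard φ S : ℤ) : C)‖ < 1 := by
  classical
  let g : 𝓞 K →+* C := ι.comp (algebraMap (𝓞 K) K)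
  have hm0 : 0 < p ^ a := pow_pos hp.pos a
  have h1 : ∀ i, ‖g (∑ x : Fin (S i).M → ZMod q,
      residueSymbol (p ^ a) ζ φ ((S i).G.eval₂ φ x)) -
      ((Nat.card {x : Fin (S i).M → ZMod q // (S i).G.eval₂ φ x ≠ 0} : ℤ) : C)‖ < 1 := by
    intro i
    have h2 : ((Nat.card {x : Fin (S i).M → ZMod q // (S i).G.eval₂ φ x ≠ 0} : ℤ) : C) =
        ∑ x : Fin (S i).M → ZMod q, if (S i).G.eval₂ φ x ≠ 0 then (1 : C) else 0 := by
      rw [Nat.card_eq_fintype_card, Fintype.card_subtype, Finset.card_filter]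
      push_cast
      rfl
    rw [h2, map_sum, ← Finset.sum_sub_distrib]
    apply Pool.Agent.TT.gn_sum_lt _ _ zero_lt_one
    intro x _
    by_cases hx : (S i).G.eval₂ φ x = 0
    · rw [if_neg (by rw [not_not]; exact hx), hx, rs_symbol_zero hm0 hφ hmq, map_zero, sub_zero,
        norm_zero]
      exact zero_lt_one
    · obtain ⟨j, hj⟩ := rs_symbol hm0 hφ hmq hx
      rw [if_pos hx, hj]
      exact er_zeta ι hp hp1 hζ.pow_eq_one j
  have h3 : ι (strataSum (p ^ a) ζ φ S : 𝓞 K) - ((strataCard φ S : ℤ) : C) =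
      ∑ i, ((S i).c : C) * (g (∑ x : Fin (S i).M → ZMod q,
        residueSymbol (p ^ a) ζ φ ((S i).G.eval₂ φ x)) -
        ((Nat.card {x : Fin (S i).M → ZMod q // (S i).G.eval₂ φ x ≠ 0} : ℤ) : C)) := by
    change g (strataSum (p ^ a) ζ φ S) - _ = _
    unfold strataSum strataCard
    rw [map_sum, Int.cast_sum, ← Finset.sum_sub_distrib]
    apply Finset.sum_congr rfl
    intro i _
    rw [map_mul, map_intCast, Int.cast_mul, mul_sub]
  rw [h3]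
  apply Pool.Agent.TT.gn_sum_lt _ _ zero_lt_one
  intro i _
  rw [norm_mul]
  exact lt_of_le_of_lt (mul_le_of_le_one_left (norm_nonneg _) (gr_int_le _)) (h1 i)

/-- **The traces of all elements**: an integer that reduces to the residual trace. -/
theorem er_trace {K : Type} [Field K] [NumberField K] [Algebra K Qbar] {p a : ℕ} (hp : p.Prime)
    {ζ : 𝓞 K} (hζ : IsPrimitiveRoot ζ (p ^ a)) {s : ℕ} (S : Fin s → Stratum K)
    {C : Type} [NormedField C] [IsUltrametricDist C] (hp1 : ‖(p : C)‖ < 1)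
    (ι : K →+* C) {T : (Qbar ≃ₐ[K] Qbar) → C} (hTc : Continuous T)
    (hT : FrobeniusValues T fun _ _ _ φ => ι (strataSum (p ^ a) ζ φ S : 𝓞 K))
    {k : Type} [Ring k] {d : ℕ} (r : (Qbar ≃ₐ[K] Qbar) →* Matrix (Fin d) (Fin d) k)
    (hr : IsOpen (r.ker : Set (Qbar ≃ₐ[K] Qbar)))
    (hrT : FrobeniusValues (fun σ => (r σ).trace) fun _ _ _ φ => ((strataCard φ S : ℤ) : k))
    (g : Qbar ≃ₐ[K] Qbar) : ∃ t : ℤ, ‖T g - (t : C)‖ < 1 ∧ (t : k) = (r g).trace := by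
  classical
  obtain ⟨B, hB⟩ := hT
  obtain ⟨B', hB'⟩ := hrT
  have hU1 : {σ : Qbar ≃ₐ[K] Qbar | r σ⁻¹ = r g} ∈ 𝓝 g⁻¹ := by
    have h1 : (fun σ : Qbar ≃ₐ[K] Qbar => g * σ) ⁻¹' (r.ker : Set (Qbar ≃ₐ[K] Qbar)) ∈ 𝓝 g⁻¹ := by
      apply (hr.preimage (continuous_const_mul g)).mem_nhds
      rw [Set.mem_preimage, mul_inv_cancel]
      exact Subgroup.one_mem _
    apply Filter.mem_of_superset h1
    intro σ hσ
    rw [Set.mem_preimage, SetLike.mem_coe, MonoidHom.mem_ker, map_mul] at hσ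
    rw [Set.mem_ofPred_eq]
    have h2 : r σ * r σ⁻¹ = 1 := by rw [← map_mul, mul_inv_cancel, map_one]
    calc r σ⁻¹ = r g * r σ * r σ⁻¹ := by rw [hσ, one_mul]
      _ = r g := by rw [mul_assoc, h2, mul_one]
  have hU2 : {σ : Qbar ≃ₐ[K] Qbar | ‖T σ⁻¹ - T g‖ < 1} ∈ 𝓝 g⁻¹ := by
    have h1 : Continuous (fun σ : Qbar ≃ₐ[K] Qbar => ‖T σ⁻¹ - T g‖) :=
      ((hTc.comp continuous_inv).sub continuous_const).norm
    apply (isOpen_lt h1 continuous_const).mem_nhds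
    rw [Set.mem_ofPred_eq, inv_inv, sub_self, norm_zero]
    exact zero_lt_one
  obtain ⟨q, hq, hqB, P, hP, hqP, σ, ⟨hσ1, hσ2⟩, hσ⟩ :=
    fb_dense g⁻¹ _ (Filter.inter_mem hU1 hU2) (B ∪ (B' ∪ Finset.range (p ^ a + 1)))
  rw [Finset.mem_union, Finset.mem_union, Finset.mem_range, not_or, not_or] at hqB
  obtain ⟨hqB1, hqB2, hqB3⟩ := hqB
  have hqF : Fact q.Prime := ⟨hq⟩
  obtain ⟨φ, hφ, hφ2⟩ := ft_phi hq hP hqP hσ
  have hm0 : 0 < p ^ a := pow_pos hp.pos a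
  obtain ⟨hζ', hmq⟩ := rs_reduce hq hm0 (by omega) hζ hP hqP φ hφ
  have hσ' : ∀ x y : 𝓞 Qbar, (y : Qbar) = σ x → y - x ^ Fintype.card (ZMod q) ∈ P := by
    rw [ZMod.card]
    exact hσ
  refine ⟨strataCard φ S, ?_, ?_⟩
  · have h1 := hB q hq hqB1 P hP hqP (ZMod q) φ hφ σ hσ'
    simp only at h1
    have h2 := er_strata hp hζ hp1 ι S φ hζ' hmq
    rw [← h1] at h2
    have h4 : T g - ((strataCard φ S : ℤ) : C) =
        -(T σ⁻¹ - T g) + (T σ⁻¹ - ((strataCard φ S : ℤ) : C)) := by ring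
    rw [h4]
    apply lt_of_le_of_lt (IsUltrametricDist.norm_add_le_max _ _)
    rw [norm_neg]
    exact max_lt hσ2 h2
  · have h1 := hB' q hq hqB2 P hP hqP (ZMod q) φ hφ σ hσ'
    simp only at h1
    rw [← h1, hσ1]

/-- **Irreducibility.** The operators span if the residual operators do. -/
theorem er_indep {K : Type} [Field K] [NumberField K] [Algebra K Qbar] {p a : ℕ} (hp : p.Prime)
    {ζ : 𝓞 K} (hζ : IsPrimitiveRoot ζ (p ^ a)) {s : ℕ} (S : Fin s → Stratum K)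
    {C : Type} [NormedField C] [IsUltrametricDist C] (hp1 : ‖(p : C)‖ < 1)
    (ι : K →+* C) {d : ℕ} (ρ : (Qbar ≃ₐ[K] Qbar) →* Matrix (Fin d) (Fin d) C) (hρ : Continuous ρ)
    (hT : FrobeniusValues (fun σ => (ρ σ).trace) fun _ _ _ φ =>
      ι (strataSum (p ^ a) ζ φ S : 𝓞 K))
    {k : Type} [Field k] [CharP k p] (r : (Qbar ≃ₐ[K] Qbar) →* Matrix (Fin d) (Fin d) k)
    (hr : IsOpen (r.ker : Set (Qbar ≃ₐ[K] Qbar)))
    (hspan : Submodule.span k (Set.range r) = ⊤)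
    (hrT : FrobeniusValues (fun σ => (r σ).trace) fun _ _ _ φ => ((strataCard φ S : ℤ) : k)) :
    ∃ γ : Fin d × Fin d → (Qbar ≃ₐ[K] Qbar), LinearIndependent C (fun x => ρ (γ x)) := by
  classical
  have : Fact p.Prime := ⟨hp⟩
  choose t ht using er_trace hp hζ S hp1 ι (T := fun σ => (ρ σ).trace) (hρ.matrix_trace) hT r hr hrT
  obtain ⟨γ, hγ⟩ := tg_exists r hspan
  refine ⟨γ, ?_⟩
  apply gram_indep ρ t (fun g => (ht g).1) hp hp1 γ
  intro h0
  apply hγ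
  have h1 : (Matrix.of fun x y : Fin d × Fin d => (r (γ x * γ y)).trace) =
      (ZMod.castHom (dvd_refl p) k).mapMatrix
        (Matrix.of fun x y => ((t (γ x * γ y) : ℤ) : ZMod p)) := by
    ext x y
    rw [RingHom.mapMatrix_apply, Matrix.map_apply, Matrix.of_apply, Matrix.of_apply, map_intCast,
      (ht _).2]
  rw [h1, ← RingHom.map_det, h0, map_zero]

/-- **No Tate classes at all primes.** -/
theorem er_main {K : Type} [Field K] [NumberField K] [Algebra K Qbar] {p a : ℕ} [hp : Fact p.Prime]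
    {ζ : 𝓞 K} (hζ : IsPrimitiveRoot ζ (p ^ a)) {s : ℕ} (S : Fin s → Stratum K)
    (ip : K →+* ℂ_[p]) {d : ℕ} (ρ : (Qbar ≃ₐ[K] Qbar) →* Matrix (Fin d) (Fin d) ℂ_[p])
    (hρ : Continuous ρ)
    (hT : FrobeniusValues (fun σ => (ρ σ).trace) fun _ _ _ φ =>
      ip (strataSum (p ^ a) ζ φ S : 𝓞 K))
    {k : Type} [Field k] [CharP k p] (r : (Qbar ≃ₐ[K] Qbar) →* Matrix (Fin d) (Fin d) k)
    (hr : IsOpen (r.ker : Set (Qbar ≃ₐ[K] Qbar)))
    (hspan : Submodule.span k (Set.range r) = ⊤)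
    (hrT : FrobeniusValues (fun σ => (r σ).trace) fun _ _ _ φ => ((strataCard φ S : ℤ) : k))
    {j : ℕ} (hdet : ∀ e : ℕ, 0 < e → ∃ σ, (cycC p σ ^ (j * d) * (ρ σ).det) ^ e ≠ 1)
    {ℓ : ℕ} [Fact ℓ.Prime] (il : K →+* PadicAlgCl ℓ) {V : Type} [AddCommGroup V]
    [Module (PadicAlgCl ℓ) V] [Module.Finite (PadicAlgCl ℓ) V]
    (π : Representation (PadicAlgCl ℓ) (Qbar ≃ₐ[K] Qbar) V)
    (hπ : FrobeniusValues (fun σ => LinearMap.trace (PadicAlgCl ℓ) V (π σ)) fun _ _ _ φ =>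
      il (strataSum (p ^ a) ζ φ S : 𝓞 K))
    (H : Subgroup (Qbar ≃ₐ[K] Qbar)) (hH : IsOpen (H : Set (Qbar ≃ₐ[K] Qbar)))
    (W₁ W₂ : Submodule (PadicAlgCl ℓ) V) (hW : W₁ ≤ W₂)
    (hTate : ∀ σ ∈ H, ∀ x ∈ W₂, cyc ℓ σ ^ j • π σ x - x ∈ W₁) : W₁ = W₂ := by
  classical
  obtain ⟨γ, hγ⟩ := er_indep hp.out hζ S (cm_norm_p p) ip ρ hρ hT r hr hspan hrT
  have hirr := gram_irred ρ γ hγ
  have hcomp := fa_compatible 0 1 (fun F _ _ φ => strataSum (p ^ a) ζ φ S) ip il ρ π (by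
      obtain ⟨B, hB⟩ := hT
      refine ⟨B, ?_⟩
      intro q hq hqB P hP hqP F _ _ φ hφ σ hσ
      rw [pow_zero, one_mul, map_one, one_mul]
      exact hB q hq hqB P hP hqP F φ hφ σ hσ) (by
      obtain ⟨B, hB⟩ := hπ
      refine ⟨B, ?_⟩
      intro q hq hqB P hP hqP F _ _ φ hφ σ hσ
      rw [pow_zero, one_mul, map_one, one_mul]
      exact hB q hq hqB P hP hqP F φ hφ σ hσ)
  have hmain := Pool.Agent.TBL.main ip il (fun _ : Fin 1 => d) (fun _ => ρ) (fun _ => hρ)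
    (fun _ => hirr) π hcomp j ∅ (fun _ _ => hdet) H hH W₁ W₂ hTate
  rw [Finset.sum_empty, add_zero] at hmain
  exact Submodule.eq_of_le_of_finrank_le hW hmain

end Pool.Agent.TF
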