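import Pool.Agent.Lib_helper61.TB.TG
import Pool.Agent.Lib_helper7.TB.Main
import Pool.Agent.Lib_helper90.Heart.Gram

/-!
# Products of conjugate linear forms with symmetric Galois group
-/

set_option autoImplicit false

namespace Pool.Agent.TF

open Pool.Agent.TB
open NumberField Topology
open Pool.Agent.TT (Qbar cyc)
open Pool.Agent.Heart (heartTr heartDim heartWt permMat pm span_of_heartTr heart_gram)

theorem cm_norm_p (p : ℕ) [Fact p.Prime] : ‖(p : ℂ_[p])‖ < 1 := by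
  have h1 : ((p : ℚ_[p]) : ℂ_[p]) = (p : ℂ_[p]) := by
    change algebraMap ℚ_[p] ℂ_[p] (p : ℚ_[p]) = (p : ℂ_[p])
    rw [map_natCast]
  rw [← h1, PadicComplex.norm_extends']
  exact Padic.norm_p_lt_one

/-- The residual trace is the trace on the exterior power of the heart. -/
theorem cm_trace {p n N b : ℕ} [Fact p.Prime]
    (hcase : (b = 0 ∧ p ∣ n) ∨ (b ≠ 0 ∧ ¬ p ∣ n)) (σ : Equiv.Perm (Fin n)) :
    heartTr (ZMod p) n N σ = (((-1) ^ N * tw n N b σ⁻¹ : ℤ) : ZMod p) := by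
  classical
  unfold tw heartTr
  have h1 : ∀ s : Finset (Fin n), ((ww σ⁻¹ s : ℤ) : ZMod p) = (-1) ^ s.card *
      ((permMat (ZMod p) n σ).submatrix (Subtype.val : s → Fin n) (Subtype.val : s → Fin n)).det := by
    intro s
    unfold ww
    rw [Int.cast_mul, Int.cast_pow, Int.cast_neg, Int.cast_one]
    congr 1
    rw [← eq_intCast (Int.castRingHom (ZMod p)), RingHom.map_det]
    congr 1
    ext x y
    rw [RingHom.mapMatrix_apply, Matrix.map_apply, Matrix.submatrix_apply, Matrix.submatrix_apply,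
      Matrix.of_apply, permMat, Matrix.of_apply]
    have h2 : σ⁻¹ (x : Fin n) = y ↔ (x : Fin n) = σ y := Equiv.Perm.inv_eq_iff_eq
    by_cases h : (x : Fin n) = σ y
    · rw [if_pos h, if_pos (h2.mpr h), map_one]
    · rw [if_neg h, if_neg (fun h' => h (h2.mp h')), map_zero]
  rw [Int.cast_mul, Int.cast_pow, Int.cast_neg, Int.cast_one, Int.cast_sum, Finset.mul_sum]
  have hmaps : ∀ s ∈ (Finset.univ : Finset (Finset (Fin n))).filter (fun s => s.card ≤ N),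
      s.card ∈ Finset.range (N + 1) := by
    intro s hs
    rw [Finset.mem_filter] at hs
    rw [Finset.mem_range]
    omega
  rw [← Finset.sum_fiberwise_of_maps_to hmaps]
  apply Finset.sum_congr rfl
  intro j hj
  rw [Finset.mem_range] at hj
  have hfil : ((Finset.univ : Finset (Finset (Fin n))).filter (fun s => s.card ≤ N)).filter
      (fun s => s.card = j) = (Finset.univ : Finset (Fin n)).powersetCard j := by
    ext s
    rw [Finset.mem_filter, Finset.mem_filter, Finset.mem_powersetCard]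
    constructor
    · rintro ⟨_, h⟩
      exact ⟨Finset.subset_univ _, h⟩
    · rintro ⟨_, h⟩
      exact ⟨⟨Finset.mem_univ _, by omega⟩, h⟩
  rw [hfil, pm, Finset.mul_sum]
  apply Finset.sum_congr rfl
  intro s hs
  rw [Finset.mem_powersetCard] at hs
  rw [Int.cast_mul, h1, hs.2]
  have hsign : (-1 : ZMod p) ^ (N - j) = (-1) ^ N * (-1) ^ j := by
    rw [← pow_add]
    have h3 : N + j = (N - j) + 2 * j := by omega
    rw [h3, pow_add, pow_mul, neg_one_sq, one_pow, mul_one]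
  have hwt : heartWt (ZMod p) n N j =
      ((if b = 0 then ((N + 1 - j : ℕ) : ℤ) else 1 : ℤ) : ZMod p) := by
    unfold heartWt
    rcases hcase with ⟨hb, hpn⟩ | ⟨hb, hpn⟩
    · rw [if_pos ((ZMod.natCast_eq_zero_iff _ _).mpr hpn), if_pos hb]
      have h3 : N + 1 - j = N - j + 1 := by omega
      rw [h3, Int.cast_natCast]
    · rw [if_neg (fun h => hpn ((ZMod.natCast_eq_zero_iff _ _).mp h)), if_neg hb, Int.cast_one]
  rw [hsign, hwt]
  ring

/-- **Irreducibility.** -/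
theorem cm_irred {K : Type} [Field K] [NumberField K] [Algebra K Qbar] {N n b : ℕ}
    (D : SymForm K N n b) {p a : ℕ} [hp : Fact p.Prime] (hp2 : p ≠ 2) (ha : a ≠ 0) {ζ : 𝓞 K}
    (hζ : IsPrimitiveRoot ζ (p ^ a)) (hnb : p ^ a ∣ n + b) (hcase : b = 0 ∨ ¬ p ∣ n) (hN : 1 ≤ N)
    (hn : 2 * N ≤ n) (ip : K →+* ℂ_[p]) {d : ℕ}
    (hd : d = if b = 0 then (n - 2).choose N else (n - 1).choose N)
    (ρ : (Qbar ≃ₐ[K] Qbar) →* Matrix (Fin d) (Fin d) ℂ_[p])
    (hρ : Continuous ρ) (hT : HasTraces (fun σ => (ρ σ).trace) ip (p ^ a) ζ D.G)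
    (W : Submodule ℂ_[p] (Fin d → ℂ_[p])) (hW : ∀ g, ∀ w ∈ W, (ρ g).mulVec w ∈ W) :
    W = ⊥ ∨ W = ⊤ := by
  classical
  have hn1 : N + 1 ≤ n := by omega
  have hcase' : (b = 0 ∧ p ∣ n) ∨ (b ≠ 0 ∧ ¬ p ∣ n) := by
    have hpnb : p ∣ n + b := (dvd_pow_self p ha).trans hnb
    by_cases hb : b = 0
    · left
      refine ⟨hb, ?_⟩
      rw [hb, add_zero] at hpnb
      exact hpnb
    · right
      exact ⟨hb, hcase.resolve_left hb⟩
  have hdim : d = heartDim (ZMod p) n N := by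
    rw [hd]
    unfold heartDim
    rcases hcase' with ⟨hb, hpn⟩ | ⟨hb, hpn⟩
    · rw [if_pos hb, if_pos ((ZMod.natCast_eq_zero_iff _ _).mpr hpn)]
    · rw [if_neg hb, if_neg (fun h => hpn ((ZMod.natCast_eq_zero_iff _ _).mp h))]
  have h2 : (2 : ZMod p) ≠ 0 := by
    intro h
    have h3 : ((2 : ℕ) : ZMod p) = 0 := by exact_mod_cast h
    rw [ZMod.natCast_eq_zero_iff] at h3
    exact hp2 ((Nat.prime_dvd_prime_iff_eq hp.out Nat.prime_two).mp h3)
  have hinj := tg_inj D hN hn1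
  have hp1 := cm_norm_p p
  have htr := fun g => tg_trace D hp.out hp2 ha hζ hnb hN hn1 hp1 ip
    (T := fun σ => (ρ σ).trace) (hρ.matrix_trace) hT g
  subst hdim
  obtain ⟨g, hg⟩ := heart_gram (k := ZMod p) h2 hn (by omega : 1 ≤ n)
  choose γ hγ using fun ab => tgP_surj D hinj (g ab)
  refine gram_irred ρ γ ?_ W hW
  apply gram_indep ρ (fun σ => (-1) ^ N * tw n N b ((tgP D σ)⁻¹)) htr hp.out hp1 γ
  have h1 : (Matrix.of fun x y =>
      (((-1) ^ N * tw n N b ((tgP D (γ x * γ y))⁻¹) : ℤ) : ZMod p)) =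
      Matrix.of fun x y => heartTr (ZMod p) n N (g x * g y) := by
    ext x y
    rw [Matrix.of_apply, Matrix.of_apply, tgP_mul D hinj, hγ, hγ, cm_trace hcase']
  rw [h1]
  exact hg

/-- **The main theorem.** -/
theorem cmain {K : Type} [Field K] [NumberField K] [Algebra K Qbar] {N n b : ℕ}
    (D : SymForm K N n b) {p a : ℕ} [hp : Fact p.Prime] (hp2 : p ≠ 2) (ha : a ≠ 0) {ζ : 𝓞 K}
    (hζ : IsPrimitiveRoot ζ (p ^ a)) (hnb : p ^ a ∣ n + b) (hcase : b = 0 ∨ ¬ p ∣ n) (hN : 1 ≤ N)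
    (hn : 2 * N ≤ n) (ip : K →+* ℂ_[p]) {d : ℕ}
    (hd : d = if b = 0 then (n - 2).choose N else (n - 1).choose N)
    (ρ : (Qbar ≃ₐ[K] Qbar) →* Matrix (Fin d) (Fin d) ℂ_[p])
    (hρ : Continuous ρ) (hT : HasTraces (fun σ => (ρ σ).trace) ip (p ^ a) ζ D.G)
    {j : ℕ} (hdet : ∀ e : ℕ, 0 < e → ∃ σ, (cycC p σ ^ (j * d) * (ρ σ).det) ^ e ≠ 1)
    {ℓ : ℕ} [Fact ℓ.Prime] (il : K →+* PadicAlgCl ℓ) {V : Type} [AddCommGroup V]
    [Module (PadicAlgCl ℓ) V] [Module.Finite (PadicAlgCl ℓ) V]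
    (π : Representation (PadicAlgCl ℓ) (Qbar ≃ₐ[K] Qbar) V)
    (hπ : HasTraces (fun σ => LinearMap.trace (PadicAlgCl ℓ) V (π σ)) il (p ^ a) ζ D.G)
    (H : Subgroup (Qbar ≃ₐ[K] Qbar)) (hH : IsOpen (H : Set (Qbar ≃ₐ[K] Qbar)))
    (W₁ W₂ : Submodule (PadicAlgCl ℓ) V) (hW : W₁ ≤ W₂)
    (hTate : ∀ σ ∈ H, ∀ x ∈ W₂, cyc ℓ σ ^ j • π σ x - x ∈ W₁) : W₁ = W₂ := by
  classical
  have hirr := cm_irred D hp2 ha hζ hnb hcase hN hn ip hd ρ hρ hT
  have hcomp := ft_compatible ip il ρ π hT hπ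
  have hmain := Pool.Agent.TBL.main ip il (fun _ : Fin 1 => d) (fun _ => ρ) (fun _ => hρ)
    (fun _ => hirr) π hcomp j ∅ (fun _ _ => hdet) H hH W₁ W₂ hTate
  rw [Finset.sum_empty, add_zero] at hmain
  exact Submodule.eq_of_le_of_finrank_le hW hmain

end Pool.Agent.TF
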