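import Pool.Agent.Lib_helper61.TT.Defs

/-!
# Products of conjugate linear forms and their character sums: definitions
-/

set_option autoImplicit false

namespace Pool.Agent.TF

open NumberField Pool.Agent.TT

/-- The sum of the symbols of `G(x)` over all `x` in `F ^ M`. -/
noncomputable def charSum {K : Type} [Field K] {F : Type} [Field F] [Fintype F] {M : ℕ} (m : ℕ)
    (ζ : 𝓞 K) (φ : 𝓞 K →+* F) (G : MvPolynomial (Fin M) (𝓞 K)) : 𝓞 K :=
  ∑ x : Fin M → F, residueSymbol m ζ φ (G.eval₂ φ x)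

/-- The function `T` on the absolute Galois group `Gal(Qbar/K)` (the trace of a representation on
`H ^ N`) is given by the character sums of `G`: for all prime ideals `𝔓` of the ring of algebraic
integers above almost all primes `q`, all finite fields `F` that contain the residue field of `K`
at `𝔓` and all elements `σ` of the Galois group that induce `x ↦ x ^ |F|` modulo `𝔓`,
`T(σ⁻¹)` is `(-1) ^ N` times the character sum of `G` over `F ^ (N + 1)`, divided by `|F| - 1`. -/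
def HasTraces {K : Type} [Field K] [Algebra K Qbar] {k : Type} [Field k]
    (T : (Qbar ≃ₐ[K] Qbar) → k) (ι : K →+* k) (m : ℕ) (ζ : 𝓞 K) {N : ℕ}
    (G : MvPolynomial (Fin (N + 1)) (𝓞 K)) : Prop :=
  ∃ B : Finset ℕ, ∀ q : ℕ, q.Prime → q ∉ B → ∀ 𝔓 : Ideal (𝓞 Qbar), 𝔓.IsPrime →
    (q : 𝓞 Qbar) ∈ 𝔓 → ∀ (F : Type) [Field F] [Fintype F] (φ : 𝓞 K →+* F),
      (∀ x : 𝓞 K, φ x = 0 ↔ algebraMap (𝓞 K) (𝓞 Qbar) x ∈ 𝔓) →
      ∀ σ : Qbar ≃ₐ[K] Qbar, (∀ x y : 𝓞 Qbar, (y : Qbar) = σ x → y - x ^ Fintype.card F ∈ 𝔓) →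
        ((Fintype.card F : k) - 1) * T σ⁻¹ = (-1) ^ N * ι (charSum m ζ φ G : 𝓞 K)

/-- A form `G` of degree `n + b` in `N + 1` variables with coefficients in `𝓞 K` that is over the
ring of algebraic integers the product of a constant, of `x₀ ^ b` and of `n` linear forms `L_i` in
general position (together with `x₀` if `b > 0`), which are permuted by the Galois group
`Gal(Qbar/K)`, and all permutations occur. -/
structure SymForm (K : Type) [Field K] [Algebra K Qbar] (N n b : ℕ) where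
  G : MvPolynomial (Fin (N + 1)) (𝓞 K)
  c : 𝓞 Qbar
  c_ne : c ≠ 0
  L : Fin n → Fin (N + 1) → 𝓞 Qbar
  map_G : G.map (algebraMap (𝓞 K) (𝓞 Qbar)) =
    MvPolynomial.C c * MvPolynomial.X 0 ^ b * ∏ i, ∑ j, MvPolynomial.C (L i j) * MvPolynomial.X j
  general : ∀ s : Fin (N + 1) ↪ Fin n, (Matrix.of fun i j => L (s i) j).det ≠ 0
  general_zero : 0 < b → ∀ s : Fin N ↪ Fin n,
    (Matrix.of fun i (j : Fin N) => L (s i) j.succ).det ≠ 0
  perm : ∀ σ : Qbar ≃ₐ[K] Qbar, ∃ π : Equiv.Perm (Fin n), ∀ i j, σ (L i j : Qbar) = L (π i) j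
  full : ∀ π : Equiv.Perm (Fin n), ∃ σ : Qbar ≃ₐ[K] Qbar, ∀ i j, σ (L i j : Qbar) = L (π i) j

end Pool.Agent.TF
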