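import Pool.Agent.Lib_helper61.TT.Defs

/-!
# Cyclic covers with an arbitrary residual representation: definitions
-/

set_option autoImplicit false

namespace Pool.Agent.TF

open NumberField Pool.Agent.TT

/-- A stratum: the affine space with `M` coordinates, a polynomial `G` over the integers of `K` and
an integral coefficient `c`. -/
structure Stratum (K : Type) [Field K] where
  M : ℕ
  G : MvPolynomial (Fin M) (𝓞 K)
  c : ℤ

/-- The sum over all strata of the coefficient `c` times the sum of the `m`-th power residue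
symbols of the values `G(x)`, where `x` runs over all points of the stratum over `F`. -/
noncomputable def strataSum {K : Type} [Field K] {F : Type} [Field F] [Fintype F] (m : ℕ)
    (ζ : 𝓞 K) (φ : 𝓞 K →+* F) {s : ℕ} (S : Fin s → Stratum K) : 𝓞 K :=
  ∑ i, ((S i).c : 𝓞 K) * ∑ x : Fin (S i).M → F, residueSymbol m ζ φ ((S i).G.eval₂ φ x)

/-- The sum over all strata of the coefficient `c` times the number of the points `x` of the
stratum over `F` with `G(x) ≠ 0`. -/
noncomputable def strataCard {K : Type} [Field K] {F : Type} [Field F] [Fintype F]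
    (φ : 𝓞 K →+* F) {s : ℕ} (S : Fin s → Stratum K) : ℤ :=
  ∑ i, (S i).c * (Nat.card {x : Fin (S i).M → F // (S i).G.eval₂ φ x ≠ 0} : ℤ)

/-- The function `T` on the absolute Galois group `Gal(Qbar/K)` is given by the numbers `n(φ)`: for
all prime ideals `𝔓` of the ring of algebraic integers above almost all primes `q`, all finite
fields `F` that contain the residue field of `K` at `𝔓` and all elements `σ` of the Galois group
that induce `x ↦ x ^ |F|` modulo `𝔓`, `T(σ⁻¹) = n(φ)`. -/
def FrobeniusValues {K : Type} [Field K] [Algebra K Qbar] {k : Type}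
    (T : (Qbar ≃ₐ[K] Qbar) → k) (n : ∀ (F : Type) [Field F] [Fintype F], (𝓞 K →+* F) → k) : Prop :=
  ∃ B : Finset ℕ, ∀ q : ℕ, q.Prime → q ∉ B → ∀ 𝔓 : Ideal (𝓞 Qbar), 𝔓.IsPrime →
    (q : 𝓞 Qbar) ∈ 𝔓 → ∀ (F : Type) [Field F] [Fintype F] (φ : 𝓞 K →+* F),
      (∀ x : 𝓞 K, φ x = 0 ↔ algebraMap (𝓞 K) (𝓞 Qbar) x ∈ 𝔓) →
      ∀ σ : Qbar ≃ₐ[K] Qbar, (∀ x y : 𝓞 Qbar, (y : Qbar) = σ x → y - x ^ Fintype.card F ∈ 𝔓) →
        T σ⁻¹ = n F φ

end Pool.Agent.TF
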