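import Pool.Agent.Lib_helper61.TB.FT
import Pool.Agent.Lib_helper61.TB.Gram

/-!
# The symbols modulo `1 - ζ`
-/

set_option autoImplicit false

namespace Pool.Agent.TF

open Pool.Agent.TB
open NumberField Topology Polynomial
open Pool.Agent.TT (Qbar cyc rm_exists rm_root pl_frob_pow residueSymbol)
open Pool.Agent.DS (GQ Induces FrobIn)

/-- Integral elements have norm at most one. -/
theorem rs_int {C : Type} [NormedField C] [IsUltrametricDist C] {x : C} (hx : IsIntegral ℤ x) :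
    ‖x‖ ≤ 1 := by
  by_contra hcon
  push Not at hcon
  obtain ⟨f, hf, hfx⟩ := hx
  have h1 : f.natDegree ≠ 0 := by
    intro h0
    rw [hf.natDegree_eq_zero.mp h0, eval₂_one] at hfx
    exact one_ne_zero hfx
  rw [hf.as_sum, eval₂_add, eval₂_finsetSum, eval₂_X_pow] at hfx
  have h2 : ‖∑ i ∈ Finset.range f.natDegree,
      eval₂ (algebraMap ℤ C) x (Polynomial.C (f.coeff i) * X ^ i)‖ ≤ ‖x‖ ^ (f.natDegree - 1) := by
    apply Pool.Agent.TT.gn_sum_le _ _ (by positivity)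
    intro i hi
    rw [Finset.mem_range] at hi
    rw [eval₂_mul, eval₂_C, eval₂_X_pow, norm_mul, norm_pow]
    calc ‖(algebraMap ℤ C) (f.coeff i)‖ * ‖x‖ ^ i ≤ 1 * ‖x‖ ^ i := by
          gcongr
          rw [eq_intCast]
          exact gr_int_le _
      _ = ‖x‖ ^ i := one_mul _
      _ ≤ ‖x‖ ^ (f.natDegree - 1) := pow_le_pow_right₀ hcon.le (by omega)
  have h3 : ‖x ^ f.natDegree‖ ≤ ‖x‖ ^ (f.natDegree - 1) := by
    rw [eq_neg_of_add_eq_zero_left hfx, norm_neg]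
    exact h2
  rw [norm_pow] at h3
  have h4 : ‖x‖ ^ (f.natDegree - 1) < ‖x‖ ^ f.natDegree :=
    pow_lt_pow_right₀ hcon (by omega)
  linarith

theorem rs_ring {K C : Type} [Field K] [NormedField C] [IsUltrametricDist C] (ι : K →+* C)
    (x : 𝓞 K) : ‖ι (x : K)‖ ≤ 1 := by
  apply rs_int
  have h1 : IsIntegral ℤ (x : K) := x.2
  exact h1.map ι.toIntAlgHom

/-- Roots of unity of `p`-power order are close to `1`. -/
theorem rs_zeta {K C : Type} [Field K] [NormedField C] [IsUltrametricDist C] (ι : K →+* C) {p a : ℕ}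
    (hp : p.Prime) (hp2 : p ≠ 2) (hp1 : ‖(p : C)‖ < 1) {ζ : 𝓞 K} (hζ : ζ ^ p ^ a = 1) (j : ℕ) :
    ‖ι ((ζ ^ j : 𝓞 K) : K) - 1‖ < 1 := by
  have h0 : (ζ ^ j) ^ p ^ a = 1 := by rw [← pow_mul, mul_comm, pow_mul, hζ, one_pow]
  obtain ⟨r, hr⟩ := exists_add_pow_prime_pow_eq hp (ζ ^ j) (-1) a
  have hodd : Odd (p ^ a) := (hp.odd_of_ne_two hp2).pow
  rw [h0, hodd.neg_one_pow, add_neg_cancel, zero_add] at hr
  obtain ⟨r', hr'⟩ : ∃ r' : 𝓞 K, (ζ ^ j + -1) ^ p ^ a = (p : 𝓞 K) * r' :=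
    ⟨ζ ^ j * -1 * r, by rw [hr]; ring⟩
  have h1 : (ι ((ζ ^ j : 𝓞 K) : K) - 1) ^ p ^ a = (p : C) * ι (r' : K) := by
    have h2 := congrArg (fun z : 𝓞 K => ι (z : K)) hr'
    simp only [map_pow, map_add, map_neg, map_one, map_mul, map_natCast] at h2
    simp only [map_pow, sub_eq_add_neg]
    exact h2
  by_contra hcon
  push Not at hcon
  have h3 : 1 ≤ ‖(ι ((ζ ^ j : 𝓞 K) : K) - 1) ^ p ^ a‖ := by
    rw [norm_pow]
    exact one_le_pow₀ hcon
  rw [h1, norm_mul] at h3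
  have h4 : ‖(p : C)‖ * ‖ι (r' : K)‖ < 1 :=
    lt_of_le_of_lt (mul_le_of_le_one_right (norm_nonneg _) (rs_ring ι r')) hp1
  linarith

section symbol

variable {K : Type} [Field K] {q : ℕ} [hq : Fact q.Prime] {m : ℕ} {ζ : 𝓞 K} {φ : 𝓞 K →+* ZMod q}

/-- The symbol of zero. -/
theorem rs_symbol_zero (hm : 0 < m) (hζ : IsPrimitiveRoot (φ ζ) m) (hmq : m ∣ q - 1) :
    residueSymbol m ζ φ (0 : ZMod q) = 0 := by
  unfold residueSymbol
  apply Finset.sum_eq_zero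
  intro j _
  rw [if_neg]
  rw [ZMod.card]
  have h1 : (q - 1) / m ≠ 0 := by
    have h2 := hq.out.one_lt
    have h3 := Nat.le_of_dvd (by omega) hmq
    exact (Nat.div_pos h3 hm).ne'
  rw [zero_pow h1]
  intro h
  have h2 : φ ζ ≠ 0 := hζ.ne_zero hm.ne'
  exact pow_ne_zero _ h2 h.symm

/-- The symbol of a nonzero element is a power of `ζ`. -/
theorem rs_symbol (hm : 0 < m) (hζ : IsPrimitiveRoot (φ ζ) m) (hmq : m ∣ q - 1) {y : ZMod q}
    (hy : y ≠ 0) : ∃ j : ℕ, residueSymbol m ζ φ y = ζ ^ j := by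
  have h1 : (y ^ ((q - 1) / m)) ^ m = 1 := by
    rw [← pow_mul, Nat.div_mul_cancel hmq]
    exact ZMod.pow_card_sub_one_eq_one hy
  have : NeZero m := ⟨hm.ne'⟩
  obtain ⟨i, hi, hi2⟩ := hζ.eq_pow_of_pow_eq_one h1
  refine ⟨i, ?_⟩
  unfold residueSymbol
  rw [Finset.sum_eq_single (⟨i, hi⟩ : Fin m)]
  · rw [if_pos]
    rw [ZMod.card]
    exact hi2.symm
  · intro j _ hj
    rw [if_neg]
    rw [ZMod.card, ← hi2]
    intro h
    apply hj
    apply Fin.ext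
    exact (hζ.pow_inj hi j.2 h).symm
  · intro h
    exact absurd (Finset.mem_univ _) h

/-- The symbol of a multiple by an `m`-th power. -/
theorem rs_symbol_mul (hmq : m ∣ q - 1) {a : ZMod q} (ha : a ≠ 0) {e : ℕ} (he : m ∣ e)
    (y : ZMod q) : residueSymbol m ζ φ (a ^ e * y) = residueSymbol m ζ φ y := by
  unfold residueSymbol
  apply Finset.sum_congr rfl
  intro j _
  have h1 : (a ^ e * y) ^ ((Fintype.card (ZMod q) - 1) / m) =
      y ^ ((Fintype.card (ZMod q) - 1) / m) := by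
    obtain ⟨c, rfl⟩ := he
    rw [mul_pow, ZMod.card]
    have h2 : (a ^ (m * c)) ^ ((q - 1) / m) = 1 := by
      rw [← pow_mul]
      have h3 : m * c * ((q - 1) / m) = (q - 1) * c := by
        rw [mul_assoc, mul_comm c, ← mul_assoc, Nat.mul_div_cancel' hmq]
      rw [h3, pow_mul, ZMod.pow_card_sub_one_eq_one ha, one_pow]
    rw [h2, one_mul]
  rw [h1]

end symbol

/-- The reduction of `ζ` at a prime of good characteristic. -/
theorem rs_reduce {K : Type} [Field K] [NumberField K] [Algebra K Qbar] {q m : ℕ} (hq : q.Prime)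
    (hm : 0 < m) (hqm : m < q) {ζ : 𝓞 K} (hζ : IsPrimitiveRoot ζ m) {Q : Ideal (𝓞 Qbar)}
    (hQ : Q.IsPrime) (hqQ : (q : 𝓞 Qbar) ∈ Q) (φ : 𝓞 K →+* ZMod q)
    (hφ : ∀ x : 𝓞 K, φ x = 0 ↔ algebraMap (𝓞 K) (𝓞 Qbar) x ∈ Q) :
    IsPrimitiveRoot (φ ζ) m ∧ m ∣ q - 1 := by
  have : Fact q.Prime := ⟨hq⟩
  have hcop : Nat.Coprime m q := (Nat.coprime_of_lt_prime hm.ne' hqm hq).symm
  have hinj : Function.Injective (algebraMap (𝓞 K) (𝓞 Qbar)) := by
    intro x y hxy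
    apply RingOfIntegers.coe_injective
    apply (algebraMap K Qbar).injective
    exact congrArg (fun z : 𝓞 Qbar => (z : Qbar)) hxy
  have key : ∀ e : ℕ, φ (ζ ^ e) = 1 → m ∣ e := by
    intro e he
    have h1 : algebraMap (𝓞 K) (𝓞 Qbar) (ζ ^ e) - 1 ∈ Q := by
      rw [← map_one (algebraMap (𝓞 K) (𝓞 Qbar)), ← map_sub, ← hφ, map_sub, he, map_one, sub_self]
    have h2 : algebraMap (𝓞 K) (𝓞 Qbar) (ζ ^ e) = 1 := by
      apply root_eq hQ.ne_top hcop hqQ (one_pow m) _ h1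
      rw [← map_pow, ← pow_mul, mul_comm, pow_mul, hζ.pow_eq_one, one_pow, map_one]
    rw [← map_one (algebraMap (𝓞 K) (𝓞 Qbar))] at h2
    exact hζ.dvd_of_pow_eq_one _ (hinj h2)
  constructor
  · refine ⟨?_, ?_⟩
    · rw [← map_pow, hζ.pow_eq_one, map_one]
    · intro e he
      exact key e (by rw [map_pow, he])
  · apply key
    have h1 : φ ζ ≠ 0 := by
      intro h
      have h2 : φ ζ ^ m = 1 := by rw [← map_pow, hζ.pow_eq_one, map_one]
      rw [h, zero_pow hm.ne'] at h2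
      exact zero_ne_one h2
    rw [map_pow, ZMod.pow_card_sub_one_eq_one h1]

end Pool.Agent.TF
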