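import Pool.Agent.Lib_helper61.TB.CG

/-!
# The traces of all elements of the Galois group modulo `1 - ζ`
-/

set_option autoImplicit false

namespace Pool.Agent.TF

open Pool.Agent.TB
open NumberField Topology
open Pool.Agent.TT (Qbar cyc rm_exists rm_root rm_root_aux pl_frob_pow residueSymbol)
open Pool.Agent.DS (GQ Induces FrobIn)

/-- A family of group elements whose operators form a basis, in terms of the Gram matrix. -/
theorem tg_exists {k G : Type} [Field k] [Group G] {d : ℕ} (r : G →* Matrix (Fin d) (Fin d) k)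
    (hr : Submodule.span k (Set.range r) = ⊤) :
    ∃ g : Fin d × Fin d → G,
      (Matrix.of fun a b : Fin d × Fin d => (r (g a * g b)).trace).det ≠ 0 := by
  classical
  obtain ⟨B, hB, hspan, hli⟩ := exists_linearIndependent k (Set.range r)
  rw [hr] at hspan
  have hbasis : Module.Basis B k (Matrix (Fin d) (Fin d) k) :=
    Module.Basis.mk hli (by rw [Subtype.range_coe, hspan])
  have hfin : Finite B := Module.Finite.finite_basis hbasis
  let _ : Fintype B := Fintype.ofFinite B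
  have hcard : Fintype.card B = Fintype.card (Fin d × Fin d) := by
    rw [← Module.finrank_eq_card_basis hbasis, Module.finrank_matrix]
    simp
  let e : Fin d × Fin d ≃ B := (Fintype.equivOfCardEq hcard).symm
  have hg : ∀ a : Fin d × Fin d, ∃ g : G, r g = (e a : Matrix (Fin d) (Fin d) k) := fun a =>
    hB (e a).2
  choose g hg using hg
  refine ⟨g, ?_⟩
  intro h0
  obtain ⟨v, hv, hv2⟩ := Matrix.exists_vecMul_eq_zero_iff.mpr h0
  set X : Matrix (Fin d) (Fin d) k := ∑ a, v a • r (g a) with hX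
  have h1 : ∀ b, (X * r (g b)).trace = 0 := by
    intro b
    have h2 := congrFun hv2 b
    rw [hX, Finset.sum_mul, Matrix.trace_sum]
    simp only [Matrix.smul_mul, Matrix.trace_smul, smul_eq_mul]
    simp only [Matrix.vecMul, dotProduct, Matrix.of_apply, map_mul, Pi.zero_apply] at h2
    exact h2
  have h3 : ∀ Y : Matrix (Fin d) (Fin d) k, (X * Y).trace = 0 := by
    intro Y
    have hY : Y ∈ Submodule.span k B := by
      rw [hspan]
      exact Submodule.mem_top
    induction hY using Submodule.span_induction with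
    | mem x hx =>
      have h4 := h1 (e.symm ⟨x, hx⟩)
      rw [hg, Equiv.apply_symm_apply] at h4
      exact h4
    | zero => rw [mul_zero, Matrix.trace_zero]
    | add x y _ _ hx hy => rw [mul_add, Matrix.trace_add, hx, hy, add_zero]
    | smul c x _ hx => rw [Matrix.mul_smul, Matrix.trace_smul, hx, smul_zero]
  have h4 : X = 0 := by
    ext i j
    have h5 := h3 (Matrix.single j i 1)
    rw [Matrix.trace_mul_single] at h5
    simpa using h5
  have h5 : LinearIndependent k (fun a => r (g a)) := by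
    have h6 : (fun a => r (g a)) = (fun b : B => (b : Matrix (Fin d) (Fin d) k)) ∘ e := by
      funext a
      exact hg a
    rw [h6]
    exact hli.comp e e.injective
  rw [Fintype.linearIndependent_iff] at h5
  apply hv
  funext a
  exact h5 v h4 a

section form

variable {K : Type} [Field K] [Algebra K Qbar] {N n b : ℕ}

theorem tg_inj (D : SymForm K N n b) (hN : 1 ≤ N) (hn : N + 1 ≤ n) :
    Function.Injective D.L := by
  classical
  intro i i' h
  by_contra hne
  -- an embedding that hits both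
  obtain ⟨s, hs0, hs1⟩ : ∃ s : Fin (N + 1) ↪ Fin n, s ⟨0, by omega⟩ = i ∧ s ⟨1, by omega⟩ = i' := by
    let s0 : Fin (N + 1) ↪ Fin n := Fin.castLEEmb hn
    have h01 : (⟨0, by omega⟩ : Fin (N + 1)) ≠ ⟨1, by omega⟩ := by simp
    let π1 : Equiv.Perm (Fin n) := Equiv.swap (s0 ⟨0, by omega⟩) i
    have h2 : π1 (s0 ⟨1, by omega⟩) ≠ i := by
      intro h2
      have h3 : π1 (s0 ⟨0, by omega⟩) = i := Equiv.swap_apply_left _ _
      rw [← h3] at h2
      exact h01 (s0.injective (π1.injective h2)).symm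
    let π2 : Equiv.Perm (Fin n) := Equiv.swap (π1 (s0 ⟨1, by omega⟩)) i'
    refine ⟨(s0.trans π1.toEmbedding).trans π2.toEmbedding, ?_, ?_⟩
    · change π2 (π1 (s0 ⟨0, by omega⟩)) = i
      have h3 : π1 (s0 ⟨0, by omega⟩) = i := Equiv.swap_apply_left _ _
      rw [h3]
      exact Equiv.swap_apply_of_ne_of_ne h2.symm hne
    · change π2 (π1 (s0 ⟨1, by omega⟩)) = i'
      exact Equiv.swap_apply_left _ _
  apply D.general s
  apply Matrix.det_zero_of_row_eq (i := ⟨0, by omega⟩) (j := ⟨1, by omega⟩)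
  · simp
  · funext j
    rw [Matrix.of_apply, Matrix.of_apply, hs0, hs1, h]

/-- The permutation of the linear forms. -/
noncomputable def tgP (D : SymForm K N n b) (σ : Qbar ≃ₐ[K] Qbar) : Equiv.Perm (Fin n) :=
  (D.perm σ).choose

theorem tgP_spec (D : SymForm K N n b) (σ : Qbar ≃ₐ[K] Qbar) (i : Fin n) (j : Fin (N + 1)) :
    σ (D.L i j : Qbar) = D.L (tgP D σ i) j := (D.perm σ).choose_spec i j

theorem tgP_unique (D : SymForm K N n b) (hinj : Function.Injective D.L) {σ : Qbar ≃ₐ[K] Qbar}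
    {π : Equiv.Perm (Fin n)} (h : ∀ i j, σ (D.L i j : Qbar) = D.L (π i) j) : tgP D σ = π := by
  ext1 i
  apply hinj
  funext j
  apply RingOfIntegers.coe_injective
  exact (tgP_spec D σ i j).symm.trans (h i j)

theorem tgP_mul (D : SymForm K N n b) (hinj : Function.Injective D.L) (σ τ : Qbar ≃ₐ[K] Qbar) :
    tgP D (σ * τ) = tgP D σ * tgP D τ := by
  apply tgP_unique D hinj
  intro i j
  rw [AlgEquiv.mul_apply, tgP_spec, tgP_spec]
  rfl

theorem tgP_one (D : SymForm K N n b) (hinj : Function.Injective D.L) :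
    tgP D (1 : Qbar ≃ₐ[K] Qbar) = 1 := by
  apply tgP_unique D hinj
  intro i j
  rfl

theorem tgP_inv (D : SymForm K N n b) (hinj : Function.Injective D.L) (σ : Qbar ≃ₐ[K] Qbar) :
    tgP D σ⁻¹ = (tgP D σ)⁻¹ := by
  apply eq_inv_of_mul_eq_one_left
  rw [← tgP_mul D hinj, inv_mul_cancel, tgP_one D hinj]

theorem tgP_surj (D : SymForm K N n b) (hinj : Function.Injective D.L) (π : Equiv.Perm (Fin n)) :
    ∃ σ : Qbar ≃ₐ[K] Qbar, tgP D σ = π := by
  obtain ⟨σ, hσ⟩ := D.full π
  exact ⟨σ, tgP_unique D hinj hσ⟩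

end form

/-- The elements that act as `h` on finitely many algebraic numbers are a neighbourhood. -/
theorem tg_nhds {K : Type} [Field K] [NumberField K] [Algebra K Qbar] (h : Qbar ≃ₐ[K] Qbar)
    {I : Type} [Finite I] (x : I → Qbar) :
    {σ : Qbar ≃ₐ[K] Qbar | ∀ i, σ (x i) = h (x i)} ∈ 𝓝 h := by
  have hac : Algebra.IsAlgebraic ℚ Qbar := AlgebraicClosure.isAlgebraic ℚ
  have hint : Algebra.IsIntegral K Qbar := by
    constructor
    intro y
    have hy : IsIntegral ℚ y := (hac.isAlgebraic y).isIntegral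
    exact hy.tower_top
  have h1 : {σ : Qbar ≃ₐ[K] Qbar | ∀ i, σ (x i) = h (x i)} =
      ⋂ i, (fun σ : Qbar ≃ₐ[K] Qbar => h⁻¹ * σ) ⁻¹'
        (MulAction.stabilizer (Qbar ≃ₐ[K] Qbar) (x i) : Set (Qbar ≃ₐ[K] Qbar)) := by
    ext σ
    simp only [Set.mem_ofPred_eq, Set.mem_iInter, Set.mem_preimage, SetLike.mem_coe,
      MulAction.mem_stabilizer_iff]
    apply forall_congr'
    intro i
    have h2 : (h⁻¹ * σ) • x i = h⁻¹ (σ (x i)) := rfl
    rw [h2]
    constructor
    · intro h3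
      rw [h3]
      change (h⁻¹ * h) (x i) = x i
      rw [inv_mul_cancel]
      rfl
    · intro h3
      have h4 : h (h⁻¹ (σ (x i))) = h (x i) := by rw [h3]
      rw [← h4]
      change σ (x i) = (h * h⁻¹) (σ (x i))
      rw [mul_inv_cancel]
      rfl
  rw [h1]
  apply (isOpen_iInter_of_finite _).mem_nhds
  · rw [Set.mem_iInter]
    intro i
    rw [Set.mem_preimage, inv_mul_cancel]
    exact Subgroup.one_mem _
  · intro i
    exact (stabilizer_isOpen_of_isIntegral (x i)).preimage (continuous_const_mul h⁻¹)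

/-- **The traces of all elements.** -/
theorem tg_trace {K : Type} [Field K] [NumberField K] [Algebra K Qbar] {N n b : ℕ}
    (D : SymForm K N n b) {p a : ℕ} (hp : p.Prime) (hp2 : p ≠ 2) (ha : a ≠ 0) {ζ : 𝓞 K}
    (hζ : IsPrimitiveRoot ζ (p ^ a)) (hnb : p ^ a ∣ n + b) (hN : 1 ≤ N) (hn : N + 1 ≤ n)
    {C : Type} [NormedField C] [IsUltrametricDist C] [CharZero C] (hp1 : ‖(p : C)‖ < 1)
    (ι : K →+* C) {T : (Qbar ≃ₐ[K] Qbar) → C} (hTc : Continuous T)
    (hT : HasTraces T ι (p ^ a) ζ D.G) (g : Qbar ≃ₐ[K] Qbar) :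
    ‖T g - (((-1) ^ N * tw n N b ((tgP D g)⁻¹) : ℤ) : C)‖ < 1 := by
  classical
  obtain ⟨B, hB⟩ := cg_main D hp hp2 ha hζ hnb hn hp1 ι
  obtain ⟨B', hB'⟩ := hT
  have hinj := tg_inj D hN hn
  have hU1 := tg_nhds g⁻¹ (fun ij : Fin n × Fin (N + 1) => (D.L ij.1 ij.2 : Qbar))
  have hU2 : {σ : Qbar ≃ₐ[K] Qbar | ‖T σ⁻¹ - T g‖ < 1} ∈ 𝓝 g⁻¹ := by
    have h1 : Continuous (fun σ : Qbar ≃ₐ[K] Qbar => ‖T σ⁻¹ - T g‖) :=
      ((hTc.comp continuous_inv).sub continuous_const).norm
    apply (isOpen_lt h1 continuous_const).mem_nhds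
    rw [Set.mem_ofPred_eq, inv_inv, sub_self, norm_zero]
    exact zero_lt_one
  obtain ⟨q, hq, hqB, Q, hQ, hqQ, σ, ⟨hσ1, hσ2⟩, hσ⟩ :=
    fb_dense g⁻¹ _ (Filter.inter_mem hU1 hU2) (B ∪ B')
  rw [Finset.mem_union, not_or] at hqB
  have hP : tgP D σ = (tgP D g)⁻¹ := by
    rw [← tgP_inv D hinj]
    apply tgP_unique D hinj
    intro i j
    rw [← tgP_spec]
    exact hσ1 (i, j)
  obtain ⟨F, _, _, φ, hF, hφ, hmain⟩ := hB q hq hqB.1 Q hQ hqQ σ hσ (tgP D σ)
    (fun i j => tgP_spec D σ i j)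
  have h3 := hmain (T σ⁻¹) (hB' q hq hqB.2 Q hQ hqQ F φ hφ σ (by rw [hF]; exact hσ))
  rw [hP] at h3
  have h4 : T g - (((-1) ^ N * tw n N b ((tgP D g)⁻¹) : ℤ) : C) =
      -(T σ⁻¹ - T g) + (T σ⁻¹ - (((-1) ^ N * tw n N b ((tgP D g)⁻¹) : ℤ) : C)) := by ring
  rw [h4]
  apply lt_of_le_of_lt (IsUltrametricDist.norm_add_le_max _ _)
  rw [norm_neg]
  exact max_lt hσ2 h3

end Pool.Agent.TF
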